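import Pool.Agent.H18EX.QUO

/-!
# Piece CONTR of project H18EX (helper14)
-/

set_option autoImplicit false

namespace Pool.Agent.H18EX.CONTR

open Function Pool.Agent.R655.LI Pool.Agent.H18LI Pool.Agent.H18EX.QUO

variable {V X R : Type}

theorem expSum_pr (g : FreeGroup (V ⊕ X)) :
    Finsupp.comapDomain Sum.inr (expSum (V ⊕ X) g).toAdd Sum.inr_injective.injOn =
      (expSum X (pr V X g)).toAdd := by
  let P : (V ⊕ X →₀ ℤ) →+ (X →₀ ℤ) := Finsupp.comapDomain.addMonoidHom Sum.inr_injective
  have h : (AddMonoidHom.toMultiplicative P).comp (expSum (V ⊕ X)) = (expSum X).comp (pr V X) := by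
    refine FreeGroup.ext_hom _ _ fun y => ?_
    rcases y with v | x
    · rw [MonoidHom.comp_apply, MonoidHom.comp_apply, pr_inl, map_one]
      simp only [expSum, FreeGroup.lift_apply_of]
      apply Multiplicative.toAdd.injective
      show P (Finsupp.single (Sum.inl v) 1) = 0
      ext z
      show Finsupp.single (Sum.inl v) 1 (Sum.inr z) = (0 : ℤ)
      simp
    · rw [MonoidHom.comp_apply, MonoidHom.comp_apply, pr_inr]
      simp only [expSum, FreeGroup.lift_apply_of]
      apply Multiplicative.toAdd.injective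
      show P (Finsupp.single (Sum.inr x) 1) = Finsupp.single x 1
      ext z
      show Finsupp.single (Sum.inr x : V ⊕ X) (1 : ℤ) (Sum.inr z) = Finsupp.single x 1 z
      classical
      simp [Finsupp.single_apply]
  exact congrArg Multiplicative.toAdd (DFunLike.congr_fun h g)

theorem expSum_inl (g : FreeGroup V) :
    (expSum (V ⊕ X) (FreeGroup.map Sum.inl g)).toAdd = Finsupp.mapDomain Sum.inl (expSum V g).toAdd := by
  have : (expSum (V ⊕ X)).comp (FreeGroup.map Sum.inl) =
      (AddMonoidHom.toMultiplicative (Finsupp.mapDomain.addMonoidHom Sum.inl)).comp (expSum V) := by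
    ext v
    simp [expSum]
  exact congrArg Multiplicative.toAdd (DFunLike.congr_fun this g)

/-- the boundary operator -/
noncomputable def bd {R V : Type} (r : R → FreeGroup V) : (R →₀ ℤ) →ₗ[ℤ] (V →₀ ℤ) :=
  Finsupp.linearCombination ℤ fun j => (expSum V (r j)).toAdd

theorem bd_single {R V : Type} (r : R → FreeGroup V) (j : R) :
    bd r (Finsupp.single j 1) = (expSum V (r j)).toAdd := by
  simp [bd]

theorem inj_gen {V' R' : Type} (a : R' → FreeGroup V') (s : R → FreeGroup (V' ⊕ X)) (q : R → FreeGroup X)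
    (hq : ∀ r, pr V' X (s r) = q r) (hA : Injective (bd a)) (hQ : Injective (bd q)) :
    Injective (bd (Sum.elim (fun j => FreeGroup.map Sum.inl (a j)) s)) := by
  set t := Sum.elim (fun j => FreeGroup.map Sum.inl (a j)) s with ht
  rw [injective_iff_map_eq_zero]
  intro c hc
  let PX : (V' ⊕ X →₀ ℤ) →ₗ[ℤ] (X →₀ ℤ) := Finsupp.lcomapDomain Sum.inr Sum.inr_injective
  let PR : (R' ⊕ R →₀ ℤ) →ₗ[ℤ] (R →₀ ℤ) := Finsupp.lcomapDomain Sum.inr Sum.inr_injective
  have h1 : PX ∘ₗ bd t = bd q ∘ₗ PR := by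
    refine Finsupp.lhom_ext' fun k => LinearMap.ext_ring ?_
    show PX (bd t (Finsupp.single k 1)) = bd q (PR (Finsupp.single k 1))
    rw [bd_single]
    have h2 : PX (expSum (V' ⊕ X) (t k)).toAdd = (expSum X (pr V' X (t k))).toAdd := expSum_pr _
    refine h2.trans ?_
    rcases k with j | r
    · have h3 : pr V' X (t (Sum.inl j)) = 1 := map_inl_one _ pr_inl _
      have h4 : PR (Finsupp.single (Sum.inl j) 1) = 0 := by
        ext z
        show Finsupp.single (Sum.inl j) 1 (Sum.inr z) = (0 : ℤ)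
        simp
      rw [h3, h4, map_one, map_zero]
      rfl
    · have h3 : pr V' X (t (Sum.inr r)) = q r := hq r
      have h4 : PR (Finsupp.single (Sum.inr r) 1) = Finsupp.single r 1 := by
        ext z
        show Finsupp.single (Sum.inr r : R' ⊕ R) (1 : ℤ) (Sum.inr z) = Finsupp.single r 1 z
        classical
        simp [Finsupp.single_apply]
      rw [h3, h4, bd_single]
  have h5 : PR c = 0 := by
    apply (injective_iff_map_eq_zero _).1 hQ
    have := LinearMap.congr_fun h1 c
    rw [LinearMap.comp_apply, LinearMap.comp_apply, hc, map_zero] at this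
    exact this.symm
  let IV : (V' →₀ ℤ) →ₗ[ℤ] (V' ⊕ X →₀ ℤ) := Finsupp.lmapDomain ℤ ℤ Sum.inl
  let IR : (R' →₀ ℤ) →ₗ[ℤ] (R' ⊕ R →₀ ℤ) := Finsupp.lmapDomain ℤ ℤ Sum.inl
  have h6 : bd t ∘ₗ IR = IV ∘ₗ bd a := by
    refine Finsupp.lhom_ext' fun j => LinearMap.ext_ring ?_
    show bd t (IR (Finsupp.single j 1)) = IV (bd a (Finsupp.single j 1))
    have h7 : IR (Finsupp.single j 1) = Finsupp.single (Sum.inl j) 1 := Finsupp.mapDomain_single
    rw [h7, bd_single, bd_single]
    exact expSum_inl _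
  obtain ⟨c', hc'⟩ : ∃ c', IR c' = c := by
    refine ⟨Finsupp.comapDomain Sum.inl c Sum.inl_injective.injOn, ?_⟩
    refine Finsupp.mapDomain_comapDomain _ Sum.inl_injective _ ?_
    intro k hk
    rcases k with j | r
    · exact ⟨j, rfl⟩
    · exfalso
      have : PR c r = 0 := by rw [h5]; rfl
      exact (Finsupp.mem_support_iff.1 hk) this
  have h8 : bd a c' = 0 := by
    have h9 : IV (bd a c') = 0 := by
      have := LinearMap.congr_fun h6 c'
      rw [LinearMap.comp_apply, LinearMap.comp_apply, hc', hc] at this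
      exact this.symm
    exact (injective_iff_map_eq_zero _).1 (Finsupp.mapDomain_injective Sum.inl_injective) _ h9
  rw [← hc', (injective_iff_map_eq_zero _).1 hA c' h8, map_zero]

theorem pi_gen (A : Cx) (hA : A.Contractible) (rels : Set (FreeGroup (A.V ⊕ X)))
    (rels' : Set (FreeGroup X)) (h1 : ∀ j, FreeGroup.map Sum.inl (A.r j) ∈ rels)
    (h3 : ∀ g ∈ rels', FreeGroup.lift (fun x => (PresentedGroup.of (Sum.inr x) : PresentedGroup rels))
      g = 1) (h : ∀ y : PresentedGroup rels', y = 1) (y : PresentedGroup rels) : y = 1 := by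
  let G : PresentedGroup rels' →* PresentedGroup rels := PresentedGroup.toGroup
    (f := fun x => (PresentedGroup.of (Sum.inr x) : PresentedGroup rels)) h3
  obtain ⟨g, rfl⟩ := PresentedGroup.mk_surjective _ y
  rw [← mk_eq A hA _ h1 g]
  show G (PresentedGroup.mk _ (pr A.V X g)) = 1
  rw [h (PresentedGroup.mk _ (pr A.V X g)), map_one]

theorem t_CONTR : S_CONTR := by
  intro A X R w u hA hQ
  have hold : ∀ j, FreeGroup.map Sum.inl (A.r j) ∈ Set.range (ext A w u).r := fun j => ⟨Sum.inl j, rfl⟩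
  refine ⟨?_, inj_gen A.r (extWord w u) (quot w).r (fun r => pr_extWord w u r) hA.bdry_inj hQ.bdry_inj⟩
  refine pi_gen A hA (Set.range (ext A w u).r) (Set.range (quot w).r) hold ?_ hQ.pi_eq_one
  rintro _ ⟨i, rfl⟩
  exact rel_one A hA _ hold w u i ⟨Sum.inr i, rfl⟩

end Pool.Agent.H18EX.CONTR
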