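import Pool.Agent.H18EX.Stm
import Pool.Agent.H18LI.COV

/-!
# Infinite cyclic coverings and local indicability
-/

set_option autoImplicit false

namespace Pool.Agent.H18EX

open Function Pool.Agent.R655.LI Pool.Agent.H18LI

/-- semidirect products of locally indicable groups -/
theorem locInd_semi {G A : Type} [Group G] [Group A] (φ : G →* MulAut A) (hG : LocInd G)
    (hA : LocInd A) : LocInd (A ⋊[φ] G) := by
  refine Pool.Agent.TH625.LOG.LocInd.ext hG (SemidirectProduct.rightHom : A ⋊[φ] G →* G) ?_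
  intro H hH hne hker
  have : Group.FG H := (Group.fg_iff_subgroup_fg H).2 hH
  have hr : ∀ x : H, (x : A ⋊[φ] G).right = 1 := fun x => MonoidHom.mem_ker.1 (hker x.2)
  let f : H →* A :=
    { toFun := fun x => (x : A ⋊[φ] G).left
      map_one' := rfl
      map_mul' := fun a b => by
        show ((a : A ⋊[φ] G) * b).left = _
        rw [SemidirectProduct.mul_left, hr a, map_one]
        rfl }
  obtain ⟨ψ, hψ⟩ := surj_of_hom hA f (by
    by_contra hcon
    push Not at hcon
    apply hne
    rw [Subgroup.eq_bot_iff_forall]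
    intro x hx
    refine SemidirectProduct.ext ?_ ?_
    · exact hcon ⟨x, hx⟩
    · exact hr ⟨x, hx⟩)
  obtain ⟨x, hx⟩ := hψ (Multiplicative.ofAdd 1)
  refine ⟨ψ, x, ?_⟩
  rw [hx]
  intro h
  have h2 : (1 : ℤ) = 0 := h
  exact one_ne_zero h2

/-- free groups are locally indicable -/
theorem locInd_free (α : Type) : LocInd (FreeGroup α) := by
  intro H _ hne
  obtain ⟨ψ, hψ⟩ := Pool.Agent.TH625.LOG.free_li H hne
  exact Pool.Agent.TH625.LOG.surj_of_ne ψ hψ

/-- left multiplication on the letters -/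
def lm (G X : Type) [Group G] : G →* MulAut (FreeGroup (G × X)) where
  toFun g := FreeGroup.freeGroupCongr (Equiv.prodCongr (Equiv.mulLeft g) (Equiv.refl X))
  map_one' := by
    refine MulEquiv.toMonoidHom_injective ?_
    ext x
    show FreeGroup.of ((1 : G) * x.1, x.2) = FreeGroup.of x
    rw [one_mul]
  map_mul' g h := by
    refine MulEquiv.toMonoidHom_injective ?_
    ext x
    show FreeGroup.of (g * h * x.1, x.2) = FreeGroup.of (g * (h * x.1), x.2)
    rw [mul_assoc]

theorem lm_of {G X : Type} [Group G] (g : G) (x : G × X) :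
    lm G X g (FreeGroup.of x) = FreeGroup.of (g * x.1, x.2) := rfl

namespace COVG

section

variable {Y I : Type} (φ : Y → ℤ) (ρ : I → FreeGroup Y)

/-- the group of the covering -/
abbrev NS : Type := PresentedGroup (Set.range fun i : I × ℤ => lft φ i.2 (ρ i.1))

/-- the group -/
abbrev GS : Type := PresentedGroup (Set.range ρ)

/-- the projection of the free group -/
abbrev pr : FreeGroup (Y × ℤ) →* NS φ ρ := PresentedGroup.mk _

theorem shift_lift (n : ℤ) :
    FreeGroup.lift (fun x : Y × ℤ => (PresentedGroup.of (x.1, x.2 + n) : NS φ ρ)) =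
      (pr φ ρ).comp (shE Y n).toMonoidHom := by
  ext x
  rw [FreeGroup.lift_apply_of, MonoidHom.comp_apply]
  rfl

theorem shift_rel (n : ℤ) (i : I × ℤ) :
    FreeGroup.lift (fun x : Y × ℤ => (PresentedGroup.of (x.1, x.2 + n) : NS φ ρ))
      (lft φ i.2 (ρ i.1)) = 1 := by
  have h1 : (PresentedGroup.mk _ (lft φ (i.2 + n) (ρ i.1)) : NS φ ρ) = 1 :=
    PresentedGroup.one_of_mem ⟨(i.1, i.2 + n), rfl⟩
  rw [shift_lift, MonoidHom.comp_apply]
  show pr φ ρ (shE Y n _) = 1
  rw [sh_lft]
  exact h1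

/-- the translation -/
def shiftHom (n : ℤ) : NS φ ρ →* NS φ ρ :=
  PresentedGroup.toGroup (f := fun x : Y × ℤ => (PresentedGroup.of (x.1, x.2 + n) : NS φ ρ)) (by
    rintro _ ⟨i, rfl⟩
    exact shift_rel φ ρ n i)

theorem shiftHom_of (n : ℤ) (x : Y × ℤ) :
    shiftHom φ ρ n (PresentedGroup.of x) = PresentedGroup.of (x.1, x.2 + n) :=
  PresentedGroup.toGroup.of _

theorem shiftHom_comp (n k : ℤ) :
    (shiftHom φ ρ n).comp (shiftHom φ ρ k) = shiftHom φ ρ (k + n) := by
  refine PresentedGroup.ext fun x => ?_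
  rw [MonoidHom.comp_apply, shiftHom_of, shiftHom_of, shiftHom_of, add_assoc]

theorem shiftHom_zero : shiftHom φ ρ 0 = MonoidHom.id _ := by
  refine PresentedGroup.ext fun x => ?_
  rw [shiftHom_of, add_zero]
  rfl

/-- the translation as an automorphism -/
def shiftAut (n : ℤ) : MulAut (NS φ ρ) where
  toFun := shiftHom φ ρ n
  invFun := shiftHom φ ρ (-n)
  left_inv x := by
    have := DFunLike.congr_fun (shiftHom_comp φ ρ (-n) n) x
    rw [MonoidHom.comp_apply, add_neg_cancel, shiftHom_zero] at this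
    exact this
  right_inv x := by
    have := DFunLike.congr_fun (shiftHom_comp φ ρ n (-n)) x
    rw [MonoidHom.comp_apply, neg_add_cancel, shiftHom_zero] at this
    exact this
  map_mul' := map_mul _

/-- the action of `ℤ` -/
def act : Multiplicative ℤ →* MulAut (NS φ ρ) where
  toFun n := shiftAut φ ρ n.toAdd
  map_one' := MulEquiv.ext fun x => DFunLike.congr_fun (shiftHom_zero φ ρ) x
  map_mul' n m := MulEquiv.ext fun x => by
    have := DFunLike.congr_fun (shiftHom_comp φ ρ n.toAdd m.toAdd) x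
    show shiftHom φ ρ (n * m).toAdd x = shiftHom φ ρ n.toAdd (shiftHom φ ρ m.toAdd x)
    rw [← MonoidHom.comp_apply, this, toAdd_mul, add_comm]

theorem act_of (n : ℤ) (x : Y × ℤ) :
    act φ ρ (Multiplicative.ofAdd n) (PresentedGroup.of x) = PresentedGroup.of (x.1, x.2 + n) :=
  shiftHom_of φ ρ n x

/-- the semidirect product -/
abbrev SP : Type := NS φ ρ ⋊[act φ ρ] Multiplicative ℤ

/-- the homomorphism of the semidirect products -/
def M : FreeGroup (Y × ℤ) ⋊[shA Y] Multiplicative ℤ →* SP φ ρ :=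
  SemidirectProduct.map (pr φ ρ) (MonoidHom.id _) (by
    intro n
    ext x
    show (PresentedGroup.of (x.1, x.2 + Multiplicative.toAdd n) : NS φ ρ) =
      shiftHom φ ρ (Multiplicative.toAdd n) (PresentedGroup.of x)
    rw [shiftHom_of])

theorem M_inl (g : FreeGroup (Y × ℤ)) : M φ ρ (SemidirectProduct.inl g) =
    SemidirectProduct.inl (pr φ ρ g) := SemidirectProduct.map_inl _ _ _ _

theorem M_inr (n : Multiplicative ℤ) : M φ ρ (SemidirectProduct.inr n) =
    SemidirectProduct.inr n := SemidirectProduct.map_inr _ _ _ _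

variable (h : ∀ i, deg φ (ρ i) = 1)

include h in
theorem M_toSP (i : I) : M φ ρ (toSP φ (ρ i)) = 1 := by
  have h1 : (PresentedGroup.mk _ (lft φ 0 (ρ i)) : NS φ ρ) = 1 :=
    PresentedGroup.one_of_mem ⟨(i, 0), rfl⟩
  rw [lft, shE_zero] at h1
  have h2 : (toSP φ (ρ i)).right = 1 := by rw [toSP_right, h i]
  refine SemidirectProduct.ext ?_ ?_
  · exact h1
  · exact h2

theorem lift_eq : FreeGroup.lift (fun y => M φ ρ (toSP φ (FreeGroup.of y))) =
    (M φ ρ).comp (toSP φ) := by
  refine FreeGroup.ext_hom _ _ fun y => ?_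
  rw [FreeGroup.lift_apply_of]
  rfl

/-- the embedding into the semidirect product -/
def emb : GS ρ →* SP φ ρ :=
  PresentedGroup.toGroup (f := fun y => M φ ρ (toSP φ (FreeGroup.of y))) (by
    rintro _ ⟨i, rfl⟩
    rw [lift_eq]
    exact M_toSP φ ρ h i)

theorem emb_of (y : Y) : emb φ ρ h (PresentedGroup.of y) =
    SemidirectProduct.inl (PresentedGroup.of (y, 0)) *
      SemidirectProduct.inr (Multiplicative.ofAdd (φ y)) := by
  have h1 : emb φ ρ h (PresentedGroup.of y) = M φ ρ (toSP φ (FreeGroup.of y)) :=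
    PresentedGroup.toGroup.of _
  rw [h1, toSP, FreeGroup.lift_apply_of, map_mul, M_inl, M_inr]
  rfl

/-- the projection of the letters -/
abbrev dn : FreeGroup (Y × ℤ) →* FreeGroup Y := FreeGroup.lift fun x => FreeGroup.of x.1

theorem dn_shE (n : ℤ) (g : FreeGroup (Y × ℤ)) : dn (shE Y n g) = dn g := by
  have : (dn : FreeGroup (Y × ℤ) →* FreeGroup Y).comp (shE Y n).toMonoidHom = dn := by
    ext x
    show dn (FreeGroup.of (x.1, x.2 + n)) = dn (FreeGroup.of x)
    rw [dn, FreeGroup.lift_apply_of, FreeGroup.lift_apply_of]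
  exact DFunLike.congr_fun this g

/-- the projection of the semidirect product -/
def dnS : FreeGroup (Y × ℤ) ⋊[shA Y] Multiplicative ℤ →* FreeGroup Y :=
  SemidirectProduct.lift dn 1 (by
    intro n
    refine MonoidHom.ext fun g => ?_
    show dn (shE Y (Multiplicative.toAdd n) g) = 1 * dn g * 1⁻¹
    rw [dn_shE, one_mul, inv_one, mul_one])

theorem dnS_toSP (g : FreeGroup Y) : dnS (toSP φ g) = g := by
  have : (dnS (Y := Y)).comp (toSP φ) = MonoidHom.id _ := by
    ext y
    rw [MonoidHom.comp_apply, toSP, FreeGroup.lift_apply_of, map_mul, dnS,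
      SemidirectProduct.lift_inl, SemidirectProduct.lift_inr, dn, FreeGroup.lift_apply_of]
    show FreeGroup.of y * 1 = _
    rw [mul_one]
    rfl
  exact DFunLike.congr_fun this g

theorem dn_lft (n : ℤ) (g : FreeGroup Y) : dn (lft φ n g) = g := by
  rw [lft, dn_shE]
  have h1 := dnS_toSP φ g
  have h2 : dnS (toSP φ g) = dn (toSP φ g).left * 1 := rfl
  rw [h2, mul_one] at h1
  exact h1

/-- the homomorphism of the covering group -/
def backN : NS φ ρ →* GS ρ :=
  PresentedGroup.toGroup (f := fun x : Y × ℤ => (PresentedGroup.of x.1 : GS ρ)) (by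
    rintro _ ⟨i, rfl⟩
    have h1 : FreeGroup.lift (fun x : Y × ℤ => (PresentedGroup.of x.1 : GS ρ)) =
        (PresentedGroup.mk (Set.range ρ)).comp dn := by
      ext x
      rw [FreeGroup.lift_apply_of, MonoidHom.comp_apply, dn, FreeGroup.lift_apply_of]
      rfl
    rw [h1, MonoidHom.comp_apply, dn_lft]
    exact PresentedGroup.one_of_mem ⟨i.1, rfl⟩)

theorem backN_of (x : Y × ℤ) : backN φ ρ (PresentedGroup.of x) = PresentedGroup.of x.1 :=
  PresentedGroup.toGroup.of _

/-- the left inverse of the embedding -/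
def back : SP φ ρ →* GS ρ :=
  SemidirectProduct.lift (backN φ ρ) 1 (by
    intro g
    refine PresentedGroup.ext fun x => ?_
    have key : ∀ n : ℤ, backN φ ρ (act φ ρ (Multiplicative.ofAdd n) (PresentedGroup.of x)) =
        (1 : GS ρ) * backN φ ρ (PresentedGroup.of x) * (1 : GS ρ)⁻¹ := by
      intro n
      rw [act_of, backN_of, backN_of, one_mul, inv_one, mul_one]
    exact key (Multiplicative.toAdd g))

theorem back_emb (x : GS ρ) : back φ ρ (emb φ ρ h x) = x := by
  have h1 : (back φ ρ).comp (emb φ ρ h) = MonoidHom.id _ := by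
    refine PresentedGroup.ext fun x => ?_
    rw [MonoidHom.comp_apply, emb_of, map_mul, back, SemidirectProduct.lift_inl,
      SemidirectProduct.lift_inr, backN_of]
    show _ * 1 = _
    rw [mul_one]
    rfl
  exact DFunLike.congr_fun h1 x

/-! ### The converse -/

/-- the group `FreeGroup G ⋊ G = G * ℤ` -/
abbrev FP : Type := FreeGroup (GS ρ × Unit) ⋊[lm (GS ρ) Unit] GS ρ

/-- the free letter -/
def s : FP ρ := SemidirectProduct.inl (FreeGroup.of (1, ()))

/-- the map of the letters -/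
def ff (x : Y × ℤ) : FP ρ :=
  s ρ ^ x.2 * SemidirectProduct.inr (PresentedGroup.of x.1) * s ρ ^ (-(x.2 + φ x.1))

/-- the homomorphism from the semidirect product -/
def Ψ : FreeGroup (Y × ℤ) ⋊[shA Y] Multiplicative ℤ →* FP ρ :=
  SemidirectProduct.lift (FreeGroup.lift (ff φ ρ)) (zpowersHom _ (s ρ)) (by
    intro n
    refine FreeGroup.ext_hom _ _ fun x => ?_
    have key : ∀ n : ℤ, FreeGroup.lift (ff φ ρ) (FreeGroup.of (x.1, x.2 + n)) =
        s ρ ^ n * FreeGroup.lift (ff φ ρ) (FreeGroup.of x) * (s ρ ^ n)⁻¹ := by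
      intro n
      rw [FreeGroup.lift_apply_of, FreeGroup.lift_apply_of, ff, ff]
      simp only []
      group
    exact key (Multiplicative.toAdd n))

theorem Ψ_inl (g : FreeGroup (Y × ℤ)) : Ψ φ ρ (SemidirectProduct.inl g) =
    FreeGroup.lift (ff φ ρ) g := SemidirectProduct.lift_inl _ _ _ _

theorem Ψ_inr (n : ℤ) : Ψ φ ρ (SemidirectProduct.inr (Multiplicative.ofAdd n)) = s ρ ^ n :=
  SemidirectProduct.lift_inr _ _ _ _

theorem Ψ_toSP (g : FreeGroup Y) : Ψ φ ρ (toSP φ g) =
    SemidirectProduct.inr (PresentedGroup.mk (Set.range ρ) g) := by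
  have : (Ψ φ ρ).comp (toSP φ) =
      (SemidirectProduct.inr : GS ρ →* FP ρ).comp (PresentedGroup.mk (Set.range ρ)) := by
    refine FreeGroup.ext_hom _ _ fun y => ?_
    rw [MonoidHom.comp_apply, toSP, FreeGroup.lift_apply_of, map_mul, Ψ_inl, Ψ_inr,
      FreeGroup.lift_apply_of, ff]
    show s ρ ^ (0 : ℤ) * SemidirectProduct.inr (PresentedGroup.of y) * s ρ ^ (-(0 + φ y)) *
      s ρ ^ (φ y) = SemidirectProduct.inr (PresentedGroup.of y)
    group
  exact DFunLike.congr_fun this g

include h in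
theorem ff_rel (n : ℤ) (i : I) : FreeGroup.lift (ff φ ρ) (lft φ n (ρ i)) = 1 := by
  have h0 : (SemidirectProduct.inl (shE Y n (toSP φ (ρ i)).left) :
      FreeGroup (Y × ℤ) ⋊[shA Y] Multiplicative ℤ) =
      SemidirectProduct.inr (Multiplicative.ofAdd n) *
        SemidirectProduct.inl (toSP φ (ρ i)).left *
        SemidirectProduct.inr (Multiplicative.ofAdd n)⁻¹ :=
    SemidirectProduct.inl_aut (φ := shA Y) (Multiplicative.ofAdd n) _
  have h2 : (toSP φ (ρ i)).right = 1 := by rw [toSP_right, h i]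
  have h3 : (SemidirectProduct.inl (toSP φ (ρ i)).left :
      FreeGroup (Y × ℤ) ⋊[shA Y] Multiplicative ℤ) = toSP φ (ρ i) := by
    refine SemidirectProduct.ext rfl ?_
    rw [h2]
    rfl
  have h4 : (PresentedGroup.mk (Set.range ρ) (ρ i) : GS ρ) = 1 := PresentedGroup.one_of_mem ⟨i, rfl⟩
  have h5 := congrArg (Ψ φ ρ) h0
  rw [Ψ_inl, map_mul, map_mul, h3, Ψ_toSP, h4, map_one, mul_one, ← map_mul, map_inv,
    mul_inv_cancel, map_one] at h5
  exact h5

/-- the homomorphism of the covering group -/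
def emb' : NS φ ρ →* FP ρ :=
  PresentedGroup.toGroup (f := ff φ ρ) (by
    rintro _ ⟨i, rfl⟩
    exact ff_rel φ ρ h i.2 i.1)

theorem emb'_of (x : Y × ℤ) : emb' φ ρ h (PresentedGroup.of x) = ff φ ρ x :=
  PresentedGroup.toGroup.of _

/-- the homomorphism back -/
def Θ : FP ρ →* SP φ ρ :=
  SemidirectProduct.lift (FreeGroup.lift fun g => emb φ ρ h g.1 *
    SemidirectProduct.inr (Multiplicative.ofAdd 1) * (emb φ ρ h g.1)⁻¹) (emb φ ρ h) (by
    intro g
    refine FreeGroup.ext_hom _ _ fun x => ?_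
    have key : FreeGroup.lift (fun g : GS ρ × Unit => emb φ ρ h g.1 *
        SemidirectProduct.inr (Multiplicative.ofAdd 1) * (emb φ ρ h g.1)⁻¹)
          (FreeGroup.of (g * x.1, x.2)) =
        emb φ ρ h g * FreeGroup.lift (fun g : GS ρ × Unit => emb φ ρ h g.1 *
          SemidirectProduct.inr (Multiplicative.ofAdd 1) * (emb φ ρ h g.1)⁻¹)
          (FreeGroup.of x) * (emb φ ρ h g)⁻¹ := by
      rw [FreeGroup.lift_apply_of, FreeGroup.lift_apply_of, map_mul]
      group
    exact key)

theorem Θ_s : Θ φ ρ h (s ρ) = SemidirectProduct.inr (Multiplicative.ofAdd 1) := by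
  rw [Θ, s, SemidirectProduct.lift_inl, FreeGroup.lift_apply_of, map_one, one_mul, inv_one, mul_one]

theorem Θ_inr (g : GS ρ) : Θ φ ρ h (SemidirectProduct.inr g) = emb φ ρ h g :=
  SemidirectProduct.lift_inr _ _ _ _

theorem inr_zpow (m : ℤ) :
    (SemidirectProduct.inr (Multiplicative.ofAdd (1 : ℤ)) : SP φ ρ) ^ m =
      SemidirectProduct.inr (Multiplicative.ofAdd m) := by
  rw [← map_zpow (SemidirectProduct.inr : Multiplicative ℤ →* SP φ ρ)]
  congr 1
  rw [← ofAdd_zsmul, smul_eq_mul, mul_one]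

theorem Θ_emb' (x : NS φ ρ) : Θ φ ρ h (emb' φ ρ h x) = SemidirectProduct.inl x := by
  have h1 : (Θ φ ρ h).comp (emb' φ ρ h) = SemidirectProduct.inl := by
    refine PresentedGroup.ext fun x => ?_
    obtain ⟨y, k⟩ := x
    have h2 : (SemidirectProduct.inl (act φ ρ (Multiplicative.ofAdd k)
        (PresentedGroup.of (y, 0))) : SP φ ρ) =
        SemidirectProduct.inr (Multiplicative.ofAdd k) *
          SemidirectProduct.inl (PresentedGroup.of (y, 0)) *
          SemidirectProduct.inr (Multiplicative.ofAdd k)⁻¹ := SemidirectProduct.inl_aut _ _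
    rw [act_of, zero_add] at h2
    have h3 : (SemidirectProduct.inr (Multiplicative.ofAdd k) *
        (SemidirectProduct.inl (PresentedGroup.of (y, 0)) *
          SemidirectProduct.inr (Multiplicative.ofAdd (φ y))) *
        SemidirectProduct.inr (Multiplicative.ofAdd (-(k + φ y))) : SP φ ρ) =
        SemidirectProduct.inr (Multiplicative.ofAdd k) *
          SemidirectProduct.inl (PresentedGroup.of (y, 0)) *
          SemidirectProduct.inr (Multiplicative.ofAdd k)⁻¹ := by
      rw [← inr_zpow φ ρ k, ← inr_zpow φ ρ (φ y), ← inr_zpow φ ρ (-(k + φ y)), map_inv,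
        ← inr_zpow φ ρ k]
      group
    rw [MonoidHom.comp_apply, emb'_of, ff, map_mul, map_mul, map_zpow, map_zpow, Θ_s, Θ_inr,
      emb_of, inr_zpow, inr_zpow, h2]
    exact h3
  exact DFunLike.congr_fun h1 x

end

theorem t_COVG : S_COVG := by
  intro Y I φ ρ h hN
  exact locInd_of_injective (locInd_semidirect (act φ ρ) hN) (emb φ ρ h)
    (LeftInverse.injective (back_emb φ ρ h))

theorem t_BLI : S_BLI := by
  intro Y I φ ρ h hG
  refine locInd_of_injective (locInd_semi (lm (GS ρ) Unit) hG (locInd_free _)) (emb' φ ρ h) ?_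
  intro a b hab
  have h1 := congrArg (Θ φ ρ h) hab
  rw [Θ_emb', Θ_emb'] at h1
  exact SemidirectProduct.inl_injective h1

end COVG

end Pool.Agent.H18EX
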