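import Pool.Agent.H18EX.Stm
import Pool.Agent.R655.LI.Howie

/-!
# Piece DEG of project H18EX: existence and uniqueness of the degree
-/

set_option autoImplicit false

namespace Pool.Agent.H18EX.DEG

open Function Pool.Agent.R655.LI Pool.Agent.H18LI

/-- the linear extension -/
noncomputable def lin {Y : Type} (φ : Y → ℤ) : (Y →₀ ℤ) →ₗ[ℤ] ℤ := Finsupp.linearCombination ℤ φ

theorem lin_single {Y : Type} (φ : Y → ℤ) (y : Y) : lin φ (Finsupp.single y 1) = φ y := by
  simp [lin]

theorem lin_exp {Y : Type} (φ : Y → ℤ) (g : FreeGroup Y) : lin φ (expSum Y g).toAdd = (deg φ g).toAdd := by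
  have : (AddMonoidHom.toMultiplicative (lin φ).toAddMonoidHom).comp (expSum Y) = deg φ := by
    ext1 y
    rw [MonoidHom.comp_apply, expSum, deg, FreeGroup.lift_apply_of, FreeGroup.lift_apply_of]
    show Multiplicative.ofAdd (lin φ (Finsupp.single y 1)) = _
    rw [lin_single]
  exact congrArg Multiplicative.toAdd (DFunLike.congr_fun this g)

theorem extWord_one {V X R : Type} (w : R → List ((V ⊕ X) × Bool)) (r : R) :
    extWord w (fun _ => 1) r = FreeGroup.mk (w r) := by
  have mk_prod : ∀ l : List ((V ⊕ X) × Bool), FreeGroup.mk l = (l.map fun a => letter a.1 a.2).prod := by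
    intro l
    induction l with
    | nil => rfl
    | cons a l ih =>
      rw [List.map_cons, List.prod_cons, ← ih]
      rfl
  rw [mk_prod, extWord]
  conv_rhs => rw [← List.ofFn_get (w r), List.map_ofFn]
  refine congrArg List.prod (congrArg List.ofFn (funext fun k => ?_))
  rw [map_one, one_mul, inv_one, mul_one]
  rfl

theorem key (L : Cx) (hL : L.Contractible) (f : L.R) :
    ∃! φ : L.V → ℤ, ∀ j, (deg φ (L.r j)).toAdd = (Finsupp.single j (1 : ℤ)) f := by
  classical
  have hs : Surjective L.bdry := bdry_surj hL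
  let e := LinearEquiv.ofBijective L.bdry ⟨hL.bdry_inj, hs⟩
  have hb : ∀ (ψ : L.V → ℤ) (j : L.R), lin ψ (L.bdry (Finsupp.single j 1)) = (deg ψ (L.r j)).toAdd := by
    intro ψ j
    rw [← lin_exp]
    congr 1
    simp [Cx.bdry]
  have h1 : ∀ ψ : L.V → ℤ, (∀ j, (deg ψ (L.r j)).toAdd = (Finsupp.single j (1 : ℤ)) f) ↔
      (lin ψ).comp L.bdry = Finsupp.lapply f := by
    intro ψ
    constructor
    · intro h
      refine Finsupp.lhom_ext' fun j => LinearMap.ext_ring ?_
      show lin ψ (L.bdry (Finsupp.single j 1)) = (Finsupp.single j (1 : ℤ)) f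
      rw [hb, h]
    · intro h j
      rw [← hb]
      exact LinearMap.congr_fun h (Finsupp.single j 1)
  refine ⟨fun v => e.symm (Finsupp.single v 1) f, (h1 _).2 ?_, fun ψ hψ => ?_⟩
  · have h3 : lin (fun v => e.symm (Finsupp.single v 1) f) =
        (Finsupp.lapply f).comp e.symm.toLinearMap := by
      refine Finsupp.lhom_ext' fun v => LinearMap.ext_ring ?_
      exact lin_single _ v
    rw [h3]
    refine LinearMap.ext fun c => ?_
    show e.symm (e c) f = c f
    rw [LinearEquiv.symm_apply_apply]
  · funext v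
    have h3 := (h1 ψ).1 hψ
    have h4 := LinearMap.congr_fun h3 (e.symm (Finsupp.single v 1))
    have h5 : L.bdry (e.symm (Finsupp.single v 1)) = Finsupp.single v 1 := e.apply_symm_apply _
    rw [LinearMap.comp_apply, h5, lin_single] at h4
    exact h4

theorem isDeg_iff (A : Cx) {X R : Type} (w : R → List ((A.V ⊕ X) × Bool)) (f : A.R) (φ : A.V ⊕ X → ℤ) :
    IsDeg A w f φ ↔ ∀ j : A.R ⊕ R, (deg φ ((ext A w fun _ => 1).r j)).toAdd =
      (Finsupp.single j (1 : ℤ)) (Sum.inl f) := by
  classical
  constructor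
  · intro h j
    rcases j with j | r
    · show (deg φ (FreeGroup.map Sum.inl (A.r j))).toAdd = _
      by_cases hj : j = f
      · subst hj
        rw [h.self, Finsupp.single_eq_same]
        rfl
      · rw [h.other j hj, Finsupp.single_eq_of_ne (fun h => hj (Sum.inl_injective h).symm)]
        rfl
    · show (deg φ (extWord w (fun _ => 1) r)).toAdd = _
      rw [extWord_one, h.new r, Finsupp.single_eq_of_ne (fun h => Sum.inl_ne_inr h)]
      rfl
  · intro h
    refine ⟨?_, fun j hj => ?_, fun r => ?_⟩
    · have := h (Sum.inl f)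
      rw [Finsupp.single_eq_same] at this
      exact congrArg Multiplicative.ofAdd this
    · have := h (Sum.inl j)
      rw [Finsupp.single_eq_of_ne (fun h => hj (Sum.inl_injective h).symm)] at this
      exact congrArg Multiplicative.ofAdd this
    · have := h (Sum.inr r)
      rw [Finsupp.single_eq_of_ne (fun h => Sum.inl_ne_inr h)] at this
      rw [← extWord_one]
      exact congrArg Multiplicative.ofAdd this

theorem t_DEG : S_DEG := by
  intro hC A X R w hA hq f
  have := key (ext A w fun _ => 1) (hC A X R w _ hA hq) (Sum.inl f)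
  obtain ⟨φ, h1, h2⟩ := this
  exact ⟨φ, (isDeg_iff A w f φ).2 h1, fun ψ hψ => h2 ψ ((isDeg_iff A w f ψ).1 hψ)⟩

end Pool.Agent.H18EX.DEG

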