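import Pool.Agent.H18EX.COVG

/-!
# Free products with free groups
-/

set_option autoImplicit false

namespace Pool.Agent.H18EX.FPF

open Function Pool.Agent.R655.LI Pool.Agent.H18LI Pool.Agent.H18EX

section

variable {V X I : Type} (ρ : I → FreeGroup V)

/-- the free product of `G` with the free group on `X` -/
abbrev FS (X : Type) : Type :=
  PresentedGroup (Set.range fun i => (FreeGroup.map Sum.inl (ρ i) : FreeGroup (V ⊕ X)))

/-- the group `G` -/
abbrev GS : Type := PresentedGroup (Set.range ρ)

/-- the semidirect product -/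
abbrev FP (X : Type) : Type := FreeGroup (GS ρ × X) ⋊[lm (GS ρ) X] GS ρ

/-- the map of the letters -/
def ff : V ⊕ X → FP ρ X :=
  Sum.elim (fun v => SemidirectProduct.inr (PresentedGroup.of v))
    (fun x => SemidirectProduct.inl (FreeGroup.of (1, x)))

/-- the embedding -/
def emb : FS ρ X →* FP ρ X :=
  PresentedGroup.toGroup (f := ff ρ) (by
    rintro _ ⟨i, rfl⟩
    have h1 : (FreeGroup.lift (ff (X := X) ρ)).comp (FreeGroup.map Sum.inl) =
        (SemidirectProduct.inr : GS ρ →* FP ρ X).comp (PresentedGroup.mk (Set.range ρ)) := by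
      refine FreeGroup.ext_hom _ _ fun v => ?_
      rw [MonoidHom.comp_apply, FreeGroup.map.of, FreeGroup.lift_apply_of]
      rfl
    have h2 := DFunLike.congr_fun h1 (ρ i)
    rw [MonoidHom.comp_apply, MonoidHom.comp_apply] at h2
    have h4 : (PresentedGroup.mk (Set.range ρ) (ρ i) : GS ρ) = 1 :=
      PresentedGroup.one_of_mem ⟨i, rfl⟩
    rw [h4, map_one] at h2
    exact h2)

theorem emb_of (y : V ⊕ X) : emb ρ (PresentedGroup.of y) = ff ρ y := PresentedGroup.toGroup.of _

/-- the inclusion of `G` -/
def inc : GS ρ →* FS ρ X :=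
  PresentedGroup.toGroup (f := fun v => (PresentedGroup.of (Sum.inl v) : FS ρ X)) (by
    rintro _ ⟨i, rfl⟩
    have h1 : FreeGroup.lift (fun v => (PresentedGroup.of (Sum.inl v) : FS ρ X)) =
        (PresentedGroup.mk _).comp (FreeGroup.map Sum.inl) := by
      refine FreeGroup.ext_hom _ _ fun v => ?_
      rw [FreeGroup.lift_apply_of, MonoidHom.comp_apply, FreeGroup.map.of]
      rfl
    rw [h1]
    exact PresentedGroup.one_of_mem ⟨i, rfl⟩)

theorem inc_of (v : V) : inc ρ (X := X) (PresentedGroup.of v) = PresentedGroup.of (Sum.inl v) :=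
  PresentedGroup.toGroup.of _

/-- the left inverse -/
def back : FP ρ X →* FS ρ X :=
  SemidirectProduct.lift (FreeGroup.lift fun g => inc ρ g.1 *
    PresentedGroup.of (Sum.inr g.2) * (inc ρ g.1)⁻¹) (inc ρ) (by
    intro g
    refine FreeGroup.ext_hom _ _ fun x => ?_
    have key : FreeGroup.lift (fun g : GS ρ × X => inc ρ (X := X) g.1 *
        PresentedGroup.of (Sum.inr g.2) * (inc ρ g.1)⁻¹)
          (FreeGroup.of (g * x.1, x.2)) =
        inc ρ g * FreeGroup.lift (fun g : GS ρ × X => inc ρ (X := X) g.1 *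
          PresentedGroup.of (Sum.inr g.2) * (inc ρ g.1)⁻¹)
          (FreeGroup.of x) * (inc ρ g)⁻¹ := by
      rw [FreeGroup.lift_apply_of, FreeGroup.lift_apply_of, map_mul]
      group
    exact key)

theorem back_emb (x : FS ρ X) : back ρ (emb ρ x) = x := by
  have h1 : (back ρ).comp (emb ρ) = MonoidHom.id (FS ρ X) := by
    refine PresentedGroup.ext fun x => ?_
    rw [MonoidHom.comp_apply, emb_of, ff]
    rcases x with v | x
    · rw [Sum.elim_inl, back, SemidirectProduct.lift_inr, inc_of]
      rfl
    · rw [Sum.elim_inr, back, SemidirectProduct.lift_inl, FreeGroup.lift_apply_of, map_one, one_mul,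
        inv_one, mul_one]
      rfl
  exact DFunLike.congr_fun h1 x

end

theorem t_FPF : S_FPF := by
  intro V X I ρ hG
  exact locInd_of_injective (locInd_semi (lm (GS ρ) X) hG (locInd_free _)) (emb ρ)
    (LeftInverse.injective (back_emb ρ))

end Pool.Agent.H18EX.FPF
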