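import Pool.Agent.H18EX.Stm
import Pool.Agent.H18LI.HALL

/-!
# Existence of a selection
-/

set_option autoImplicit false

namespace Pool.Agent.H18EX.HALL2

open Function Pool.Agent.R655.LI Pool.Agent.H18LI Pool.Agent.H18EX

/-- the new letters -/
def flt {V X : Type} (a : (V ⊕ X) × Bool) : Option (X × Bool) :=
  a.1.elim (fun _ => none) (fun x => some (x, a.2))

theorem lift_eq {V X : Type} (l : List ((V ⊕ X) × Bool)) :
    FreeGroup.lift (Sum.elim (fun _ : V => (1 : FreeGroup X)) FreeGroup.of) (FreeGroup.mk l) =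
      FreeGroup.mk (l.filterMap flt) := by
  induction l with
  | nil =>
    rw [List.filterMap_nil, ← FreeGroup.one_eq_mk, map_one]
    rfl
  | cons a l ih =>
    have h1 : (FreeGroup.mk (a :: l) : FreeGroup (V ⊕ X)) = FreeGroup.mk [a] * FreeGroup.mk l := by
      rw [FreeGroup.mul_mk]
      rfl
    rw [h1, map_mul, ih]
    obtain ⟨v | x, b⟩ := a
    · have h2 : (((Sum.inl v : V ⊕ X), b) :: l).filterMap flt = l.filterMap flt := rfl
      rw [h2]
      have h3 : FreeGroup.lift (Sum.elim (fun _ : V => (1 : FreeGroup X)) FreeGroup.of)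
          (FreeGroup.mk [((Sum.inl v : V ⊕ X), b)]) = 1 := by
        rw [FreeGroup.lift_mk]
        cases b <;> simp
      rw [h3, one_mul]
    · have h2 : (((Sum.inr x : V ⊕ X), b) :: l).filterMap flt = (x, b) :: l.filterMap flt := rfl
      have h3 : FreeGroup.lift (Sum.elim (fun _ : V => (1 : FreeGroup X)) FreeGroup.of)
          (FreeGroup.mk [((Sum.inr x : V ⊕ X), b)]) = FreeGroup.mk [(x, b)] := by
        rw [FreeGroup.lift_mk]
        cases b
        · simp [FreeGroup.of, FreeGroup.inv_mk, FreeGroup.invRev]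
        · simp [FreeGroup.of]
      rw [h2, h3, FreeGroup.mul_mk]
      rfl

theorem t_HALL2 : S_HALL2 := by
  intro V X R _ _ w hinj
  have h0 : base (fun r => (w r).filterMap flt) = quot w := by
    unfold base quot
    congr 1
    funext r
    exact (lift_eq (w r)).symm
  rw [← h0] at hinj
  obtain ⟨q', h1, h2⟩ := t_HALL X R _ hinj
  have h3' : ∀ p : Pos (fun r => (w r).filterMap flt), ∃ k : Fin (w p.1).length,
      gen w ⟨p.1, k⟩ = Sum.inr (gen (fun r => (w r).filterMap flt) p) := by
    rintro ⟨r', k'⟩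
    have h4 : ((w r').filterMap flt).get k' ∈ (w r').filterMap flt := List.get_mem _ _
    obtain ⟨a, ha, h5⟩ := List.mem_filterMap.1 h4
    obtain ⟨k, hk⟩ := List.mem_iff_get.1 ha
    refine ⟨k, ?_⟩
    show ((w r').get k).1 = Sum.inr (((w r').filterMap flt).get k').1
    rw [hk]
    obtain ⟨v | x, b⟩ := a
    · exact absurd h5 (by simp [flt])
    · have h6 : some (x, b) = some (((w r').filterMap flt).get k') := h5
      have h7 := Option.some.inj h6
      rw [← h7]
  have h3 : ∀ r, ∃ k : Fin (w r).length,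
      gen w ⟨r, k⟩ = Sum.inr (gen (fun r => (w r).filterMap flt) (q' r)) := by
    intro r
    have h4 := h3' (q' r)
    have hr := h1 r
    revert h4
    generalize q' r = p at hr ⊢
    subst hr
    exact id
  choose k hk using h3
  exact ⟨fun r => ⟨r, k r⟩, fun r => rfl, _, h2, hk⟩

end Pool.Agent.H18EX.HALL2
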