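import Pool.Agent.H18EX.Stm

/-!
# Piece ISO2 (isolation lemma with several exponents) of project H18EX
-/

set_option autoImplicit false
set_option linter.unusedSectionVars false

namespace Pool.Agent.H18EX.ISO2

open Function
open scoped Classical

variable {P R V : Type} [Fintype P] [Fintype R] [Fintype V] {N : ℕ}

/-- the weight of `p` -/
def wt (a : V → ℤ) (c : P → ℤ) (h : P × V → Fin N) (p : P) : ℤ :=
  c p + ∑ v, ((h (p, v) : ℕ) : ℤ) * a v

/-- `q` has minimal weight -/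
def Mn (Sel : Set (R → P)) (a : V → ℤ) (c : P → ℤ) (h : P × V → Fin N) (q : R → P) : Prop :=
  ∀ q' ∈ Sel, ∑ r, wt a c h (q r) ≤ ∑ r, wt a c h (q' r)

/-- the functions for which `p` is ambiguous -/
def Bad (Sel : Set (R → P)) (a : V → ℤ) (c : P → ℤ) (p : P) : Set (P × V → Fin N) :=
  {h | ∃ q₁ ∈ Sel, ∃ q₂ ∈ Sel, Mn Sel a c h q₁ ∧ Mn Sel a c h q₂ ∧ (∃ r, q₁ r = p) ∧
    ∀ r, q₂ r ≠ p}

theorem bad_aux (Sel : Set (R → P)) (a : V → ℤ) (c : P → ℤ) (p : P) {h h' : P × V → Fin N}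
    (hb : h ∈ Bad Sel a c p) (hb' : h' ∈ Bad Sel a c p)
    (hag : ∀ x, x ≠ p → wt a c h x = wt a c h' x) (hlt : wt a c h p < wt a c h' p) : False := by
  obtain ⟨q₁, hq₁, q₂, hq₂, m₁, m₂, -, hn⟩ := hb
  obtain ⟨q₁', hq₁', q₂', hq₂', m₁', m₂', ⟨r', hr'⟩, -⟩ := hb'
  have e1 : ∑ r, wt a c h' (q₂ r) = ∑ r, wt a c h (q₂ r) :=
    Finset.sum_congr rfl fun r _ => (hag _ (hn r)).symm
  have e2 : ∑ r, wt a c h (q₂ r) ≤ ∑ r, wt a c h (q₁' r) := m₂ _ hq₁'
  have e3 : ∑ r, wt a c h (q₁' r) < ∑ r, wt a c h' (q₁' r) := by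
    refine Finset.sum_lt_sum (fun r _ => ?_) ⟨r', Finset.mem_univ _, ?_⟩
    · by_cases hx : q₁' r = p
      · rw [hx]
        exact hlt.le
      · rw [hag _ hx]
    · rw [hr']
      exact hlt
  have e4 : ∑ r, wt a c h' (q₁' r) ≤ ∑ r, wt a c h' (q₂ r) := m₁' _ hq₂
  omega

theorem bad_inj (Sel : Set (R → P)) (a : V → ℤ) (c : P → ℤ) (p : P) (v₀ : V) (hv₀ : a v₀ ≠ 0)
    {h h' : P × V → Fin N} (hb : h ∈ Bad Sel a c p) (hb' : h' ∈ Bad Sel a c p)
    (hag : ∀ x, x ≠ (p, v₀) → h x = h' x) : h = h' := by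
  have hw : ∀ x, x ≠ p → wt a c h x = wt a c h' x := by
    intro x hx
    unfold wt
    congr 1
    refine Finset.sum_congr rfl fun v _ => ?_
    rw [hag (x, v) (fun he => hx (congrArg Prod.fst he))]
  have hwp : wt a c h p = wt a c h' p := by
    rcases lt_trichotomy (wt a c h p) (wt a c h' p) with hlt | heq | hgt
    · exact (bad_aux Sel a c p hb hb' hw hlt).elim
    · exact heq
    · exact (bad_aux Sel a c p hb' hb (fun x hx => (hw x hx).symm) hgt).elim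
  have hp : h (p, v₀) = h' (p, v₀) := by
    unfold wt at hwp
    have h1 := add_left_cancel hwp
    rw [← Finset.add_sum_erase _ _ (Finset.mem_univ v₀),
      ← Finset.add_sum_erase (a := v₀) _ (fun v => ((h' (p, v) : ℕ) : ℤ) * a v)
        (Finset.mem_univ v₀)] at h1
    have h2 : ∑ v ∈ Finset.univ.erase v₀, ((h (p, v) : ℕ) : ℤ) * a v =
        ∑ v ∈ Finset.univ.erase v₀, ((h' (p, v) : ℕ) : ℤ) * a v := by
      refine Finset.sum_congr rfl fun v hv => ?_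
      rw [hag (p, v) (fun he => Finset.ne_of_mem_erase hv (congrArg Prod.snd he))]
    rw [h2] at h1
    have h3 := add_right_cancel h1
    have h4 := mul_right_cancel₀ hv₀ h3
    exact Fin.ext (by exact_mod_cast h4)
  funext x
  by_cases hx : x = (p, v₀)
  · rw [hx, hp]
  · exact hag x hx

theorem bad_card (Sel : Set (R → P)) (a : V → ℤ) (c : P → ℤ) (p : P) (v₀ : V) (hv₀ : a v₀ ≠ 0) :
    (Bad Sel a c p : Set (P × V → Fin N)).ncard * N ≤
      N ^ (Fintype.card P * Fintype.card V) := by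
  set B : Set (P × V → Fin N) := Bad Sel a c p with hB
  have h1 : Nat.card (↥B × Fin N) ≤ Nat.card (P × V → Fin N) := by
    refine Nat.card_le_card_of_injective
      (fun x : ↥B × Fin N => update (x.1 : P × V → Fin N) (p, v₀) x.2) ?_
    rintro ⟨⟨h, hh⟩, b⟩ ⟨⟨h', hh'⟩, b'⟩ he
    simp only at he
    have ha : b = b' := by
      have := congrFun he (p, v₀)
      simpa using this
    have hag : ∀ x, x ≠ (p, v₀) → h x = h' x := by
      intro x hx
      have := congrFun he x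
      rwa [update_of_ne hx, update_of_ne hx] at this
    have := bad_inj Sel a c p v₀ hv₀ hh hh' hag
    subst this
    subst ha
    rfl
  rw [Nat.card_prod, Nat.card_coe_set_eq, Nat.card_eq_fintype_card, Nat.card_eq_fintype_card,
    Fintype.card_fin, Fintype.card_fun, Fintype.card_fin, Fintype.card_prod] at h1
  exact h1

/-- **Piece ISO2** -/
theorem t_ISO2 : S_ISO2 := by
  intro P R V _ _ _ row N Sel a c hSel ⟨v₀, hv₀⟩
  have hsub : {h : P × V → Fin N | ∃ q₁ ∈ Sel, ∃ q₂ ∈ Sel, q₁ ≠ q₂ ∧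
      (∀ q ∈ Sel, ∑ r, (c (q₁ r) + ∑ v, ((h (q₁ r, v) : ℕ) : ℤ) * a v) ≤
        ∑ r, (c (q r) + ∑ v, ((h (q r, v) : ℕ) : ℤ) * a v)) ∧
      (∀ q ∈ Sel, ∑ r, (c (q₂ r) + ∑ v, ((h (q₂ r, v) : ℕ) : ℤ) * a v) ≤
        ∑ r, (c (q r) + ∑ v, ((h (q r, v) : ℕ) : ℤ) * a v))} ⊆ ⋃ p, Bad Sel a c p := by
    rintro h ⟨q₁, hq₁, q₂, hq₂, hne, m₁, m₂⟩
    obtain ⟨r, hr⟩ := Function.ne_iff.mp hne
    refine Set.mem_iUnion.mpr ⟨q₁ r, q₁, hq₁, q₂, hq₂, m₁, m₂, ⟨r, rfl⟩, fun r' hr' => ?_⟩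
    have h1 := hSel q₂ hq₂ r'
    rw [hr', hSel q₁ hq₁ r] at h1
    subst h1
    exact hr hr'.symm
  have h1 := Set.ncard_le_ncard hsub (Set.toFinite _)
  have h2 : (⋃ p, Bad Sel a c p : Set (P × V → Fin N)).ncard ≤
      ∑ p, (Bad Sel a c p : Set (P × V → Fin N)).ncard :=
    Set.ncard_iUnion_le_of_fintype (fun p => (Bad Sel a c p : Set (P × V → Fin N)))
  calc _ ≤ (∑ p, (Bad Sel a c p : Set (P × V → Fin N)).ncard) * N :=
        Nat.mul_le_mul_right N (h1.trans h2)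
    _ = ∑ p, (Bad Sel a c p : Set (P × V → Fin N)).ncard * N := Finset.sum_mul _ _ _
    _ ≤ ∑ _p : P, N ^ (Fintype.card P * Fintype.card V) :=
        Finset.sum_le_sum fun p _ => bad_card Sel a c p v₀ hv₀
    _ = Fintype.card P * N ^ (Fintype.card P * Fintype.card V) := by
      rw [Finset.sum_const, Finset.card_univ, smul_eq_mul]

end Pool.Agent.H18EX.ISO2
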