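import Pool.Agent.H18EX.Stm

/-!
# Piece LET of project H18EX: the letters of the lifts
-/

set_option autoImplicit false

namespace Pool.Agent.H18EX.LET

open Function Pool.Agent.R655.LI Pool.Agent.H18LI

variable {V X R Y : Type}

theorem of_mem {x y : Y} (h : y ≠ x) : FreeGroup.of y ∈ Away x :=
  Subgroup.subset_closure ⟨y, h, rfl⟩

theorem letter_true (y : Y) : letter y true = FreeGroup.of y := rfl

theorem letter_false (y : Y) : letter y false = (FreeGroup.of y)⁻¹ := rfl

theorem letter_mem {x y : Y} (b : Bool) (h : y ≠ x) : letter y b ∈ Away x := by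
  cases b
  · exact inv_mem (of_mem h)
  · exact of_mem h

/-- (c): the old letters -/
theorem old (φ : V ⊕ X → ℤ) (x : X) (m : ℤ) (g : FreeGroup V) :
    ∀ n : ℤ, lft φ n (FreeGroup.map Sum.inl g) ∈ Away ((Sum.inr x, m) : (V ⊕ X) × ℤ) := by
  have h0 : ∀ (v : V) (n : ℤ), lft φ n (FreeGroup.of (Sum.inl v)) ∈ Away ((Sum.inr x, m) : (V ⊕ X) × ℤ) := by
    intro v n
    rw [lft_of]
    refine of_mem fun h => ?_
    rw [Prod.mk.injEq] at h
    exact Sum.inl_ne_inr h.1
  induction g using FreeGroup.induction_on with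
  | C1 =>
    intro n
    rw [map_one, lft_one]
    exact one_mem _
  | of v =>
    intro n
    rw [FreeGroup.map.of]
    exact h0 v n
  | inv_of v _ =>
    intro n
    rw [map_inv, FreeGroup.map.of, lft_inv]
    exact inv_mem (h0 v _)
  | mul a b ha hb =>
    intro n
    rw [map_mul, lft_mul]
    exact mul_mem (ha n) (hb _)

theorem lft_letter (φ : Y → ℤ) (s : ℤ) (y : Y) (b : Bool) :
    lft φ s (letter y b) = letter (y, s - (if b then 0 else φ y)) b := by
  cases b
  · rw [letter_false, letter_false, lft_inv, lft_of]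
    have : (deg φ (FreeGroup.of y)).toAdd = φ y := by
      rw [deg, FreeGroup.lift_apply_of]
      rfl
    rw [this]
    rfl
  · rw [letter_true, letter_true, lft_of]
    simp

theorem deg_conj (φ : Y → ℤ) (U g : FreeGroup Y) : deg φ (U * g * U⁻¹) = deg φ g := by
  rw [map_mul, map_mul, map_inv, mul_comm (deg φ U), mul_inv_cancel_right]

theorem lft_prod (φ : Y → ℤ) (N : ℕ) : ∀ (c : Fin N → FreeGroup Y) (n : ℤ),
    lft φ n (List.ofFn c).prod =
      (List.ofFn fun k : Fin N => lft φ (n + (deg φ ((List.ofFn c).take k).prod).toAdd) (c k)).prod := by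
  induction N with
  | zero =>
    intro c n
    simp [lft_one]
  | succ N ih =>
    intro c n
    rw [List.ofFn_succ, List.prod_cons, lft_mul, ih, List.ofFn_succ, List.prod_cons]
    congr 1
    · simp
    · congr 1
      congr 1
      funext k
      rw [Fin.val_succ, List.take_succ_cons, List.prod_cons, map_mul, toAdd_mul, add_assoc]

theorem mk_prod (l : List (Y × Bool)) : FreeGroup.mk l = (l.map fun a => letter a.1 a.2).prod := by
  induction l with
  | nil => rfl
  | cons a l ih =>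
    rw [List.map_cons, List.prod_cons, ← ih]
    rfl

/-- the degree of the initial part -/
theorem deg_take (w : R → List ((V ⊕ X) × Bool)) (u : Pos w → FreeGroup V) (φ : V ⊕ X → ℤ) (r : R) (j : ℕ) :
    deg φ ((List.ofFn fun k : Fin (w r).length =>
      FreeGroup.map Sum.inl (u ⟨r, k⟩) * letter (gen w ⟨r, k⟩) (sgn w ⟨r, k⟩) *
        (FreeGroup.map Sum.inl (u ⟨r, k⟩))⁻¹).take j).prod = deg φ (FreeGroup.mk ((w r).take j)) := by
  rw [mk_prod, map_list_prod, map_list_prod, List.map_take, List.map_take, List.map_take, List.map_ofFn,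
    List.map_map]
  congr 2
  conv_rhs => rw [← List.ofFn_get (w r), List.map_ofFn]
  congr 1
  funext k
  show deg φ (FreeGroup.map Sum.inl (u ⟨r, k⟩) * letter (gen w ⟨r, k⟩) (sgn w ⟨r, k⟩) *
        (FreeGroup.map Sum.inl (u ⟨r, k⟩))⁻¹) = deg φ (letter (gen w ⟨r, k⟩) (sgn w ⟨r, k⟩))
  exact deg_conj _ _ _

/-- the lift of a factor -/
theorem lft_factor (w : R → List ((V ⊕ X) × Bool)) (u : Pos w → FreeGroup V) (φ : V ⊕ X → ℤ) (n : ℤ) (p : Pos w)
    (x : X) (m : ℤ) :
    ∃ a ∈ Away ((Sum.inr x, m) : (V ⊕ X) × ℤ), ∃ b ∈ Away ((Sum.inr x, m) : (V ⊕ X) × ℤ),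
      lft φ (n + (deg φ (FreeGroup.mk ((w p.1).take p.2))).toAdd) (FreeGroup.map Sum.inl (u p) *
        letter (gen w p) (sgn w p) * (FreeGroup.map Sum.inl (u p))⁻¹) =
        a * letter (gen w p, hgt w φ u p + n) (sgn w p) * b := by
  rw [lft_mul, lft_mul, lft_letter]
  refine ⟨_, old φ x m (u p) (n + (deg φ (FreeGroup.mk ((w p.1).take p.2))).toAdd), _, ?_,
    congrArg₂ _ (congrArg₂ _ rfl (congrArg₂ _ (Prod.ext rfl ?_) rfl)) rfl⟩
  · rw [← map_inv]
    exact old φ x m _ _
  · unfold hgt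
    show _ = _
    ring

theorem t_LET : S_LET := by
  intro V X R w u φ n x m
  have hlift : ∀ r, lft φ n (extWord w u r) = (List.ofFn fun k : Fin (w r).length =>
      lft φ (n + (deg φ (FreeGroup.mk ((w r).take k))).toAdd) (FreeGroup.map Sum.inl (u ⟨r, k⟩) *
        letter (gen w ⟨r, k⟩) (sgn w ⟨r, k⟩) * (FreeGroup.map Sum.inl (u ⟨r, k⟩))⁻¹)).prod := by
    intro r
    rw [extWord, lft_prod]
    congr 2
    funext k
    rw [deg_take]
  have haway : ∀ r (k : Fin (w r).length), ¬ (gen w ⟨r, k⟩ = Sum.inr x ∧ hgt w φ u ⟨r, k⟩ + n = m) →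
      lft φ (n + (deg φ (FreeGroup.mk ((w r).take k))).toAdd) (FreeGroup.map Sum.inl (u ⟨r, k⟩) *
        letter (gen w ⟨r, k⟩) (sgn w ⟨r, k⟩) * (FreeGroup.map Sum.inl (u ⟨r, k⟩))⁻¹) ∈
        Away ((Sum.inr x, m) : (V ⊕ X) × ℤ) := by
    intro r k hk
    obtain ⟨a, ha, b, hb, h⟩ := lft_factor w u φ n ⟨r, k⟩ x m
    rw [h]
    refine mul_mem (mul_mem ha (letter_mem _ fun h' => hk ?_)) hb
    rw [Prod.mk.injEq] at h'
    exact h'
  refine ⟨fun r hr => ?_, fun r k hk hk' huniq => ?_, fun g => old φ x m g n⟩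
  · rw [hlift]
    refine Subgroup.list_prod_mem _ fun y hy => ?_
    rw [List.mem_ofFn] at hy
    obtain ⟨k, rfl⟩ := hy
    exact haway r k fun h => hr k h.1 h.2
  · obtain ⟨a, ha, b, hb, h⟩ := lft_factor w u φ n ⟨r, k⟩ x m
    rw [hlift]
    set F : Fin (w r).length → FreeGroup ((V ⊕ X) × ℤ) := fun k =>
      lft φ (n + (deg φ (FreeGroup.mk ((w r).take k))).toAdd) (FreeGroup.map Sum.inl (u ⟨r, k⟩) *
        letter (gen w ⟨r, k⟩) (sgn w ⟨r, k⟩) * (FreeGroup.map Sum.inl (u ⟨r, k⟩))⁻¹) with hF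
    have hlen : (List.ofFn F).length = (w r).length := List.length_ofFn
    have hk2 : (k : ℕ) < (List.ofFn F).length := by rw [hlen]; exact k.2
    have hsplit : List.ofFn F = (List.ofFn F).take k ++ F k :: (List.ofFn F).drop (k + 1) := by
      conv_lhs => rw [← List.take_append_drop k (List.ofFn F), List.drop_eq_getElem_cons hk2]
      rw [List.getElem_ofFn]
    have hFk : F k = a * letter (gen w ⟨r, k⟩, hgt w φ u ⟨r, k⟩ + n) (sgn w ⟨r, k⟩) * b := h
    refine ⟨((List.ofFn F).take k).prod * a, mul_mem (Subgroup.list_prod_mem _ fun y hy => ?_) ha,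
      b * ((List.ofFn F).drop (k + 1)).prod, mul_mem hb (Subgroup.list_prod_mem _ fun y hy => ?_), ?_⟩
    · obtain ⟨i, hi, rfl⟩ := List.mem_iff_getElem.1 hy
      rw [List.length_take, hlen] at hi
      rw [List.getElem_take, List.getElem_ofFn]
      have hik : i < (k : ℕ) := lt_of_lt_of_le hi (min_le_left _ _)
      exact haway r _ fun h => hik.ne (congrArg Fin.val (huniq _ h.1 h.2))
    · obtain ⟨i, hi, rfl⟩ := List.mem_iff_getElem.1 hy
      rw [List.getElem_drop, List.getElem_ofFn]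
      exact haway r _ fun h => by
        have := congrArg Fin.val (huniq _ h.1 h.2)
        simp only at this
        omega
    · conv_lhs => rw [hsplit]
      rw [List.prod_append, List.prod_cons, hFk, hk, hk']
      simp only [mul_assoc]

end Pool.Agent.H18EX.LET

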