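import Pool.Agent.H18EX.Stm
import Pool.Agent.H18LI.Final
import Pool.Agent.H18LI.WALK
import Pool.Agent.H18LI.CONTR

/-!
# Assembly of the project H18EX
-/

set_option autoImplicit false

namespace Pool.Agent.H18EX

open Function Pool.Agent.R655.LI Pool.Agent.H18LI

theorem locInd_sub (L K : Cx) (s : Sub K L) (h : LocInd (GrpS L (Set.range s.c))) :
    LocInd K.Pi := by
  refine locInd_retract K (fun x => s.v x) s.v.injective (fun i : Set.range s.c => L.r i) ?_ ?_ h
  · intro j
    exact ⟨⟨s.c j, j, rfl⟩, s.comm j⟩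
  · rintro ⟨_, j, rfl⟩
    exact ⟨j, s.comm j⟩

/-- the subcomplex with all the 1-cells and the 2-cells `T` -/
def res (L : Cx) (T : Set L.R) : Cx := ⟨L.V, T, fun i => L.r i⟩

/-- the inclusion -/
def subRes (L : Cx) (T : Set L.R) : Sub (res L T) L where
  v := Embedding.refl _
  c := ⟨Subtype.val, Subtype.val_injective⟩
  comm j := by
    change FreeGroup.map id _ = _
    rw [FreeGroup.map.id]
    rfl

theorem range_subRes (L : Cx) (T : Set L.R) : Set.range (subRes L T).c = T := Subtype.range_val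

theorem allLI_iff (L : Cx) : AllLI L ↔ ∀ T : Set L.R, LocInd (GrpS L T) :=
  ⟨fun h T => h (res L T) (subRes L T), fun h K s => locInd_sub L K s (h _)⟩

variable {V X R : Type}

theorem deg_extWord (w : R → List ((V ⊕ X) × Bool)) (u : Pos w → FreeGroup V) (φ : V ⊕ X → ℤ)
    (r : R) : deg φ (extWord w u r) = deg φ (FreeGroup.mk (w r)) := by
  rw [extWord, mk_eq_ofFn, map_list_prod, map_list_prod, List.map_ofFn, List.map_ofFn]
  congr 2
  funext k
  simp only [Function.comp_apply]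
  rw [map_mul, map_mul, map_inv, mul_comm, ← mul_assoc, inv_mul_cancel, one_mul]
  rfl

/-- the inclusion of `A` -/
def subExt (A : Cx) (w : R → List ((A.V ⊕ X) × Bool)) (u : Pos w → FreeGroup A.V) :
    Sub A (ext A w u) where
  v := Embedding.inl
  c := Embedding.inl
  comm _ := rfl

/-- the main step -/
theorem rel (hB : S_BLI) (hV : S_COVG) (hF : S_FPF) (hE : S_RELIM) (hL : S_LET) (hH : S_HALL2)
    (A : Cx) [Finite X] [Fintype R] (w : R → List ((A.V ⊕ X) × Bool)) (hq : (quot w).Contractible)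
    (u : Pos w → FreeGroup A.V) (f : A.R) (φ : A.V ⊕ X → ℤ) (hφ : IsDeg A w f φ)
    (ht : ¬ Tie w φ u) (hA : ∀ T : Set A.R, f ∉ T → LocInd (GrpS A T))
    (T : Set (A.R ⊕ R)) (hf : (Sum.inl f : A.R ⊕ R) ∉ T) : LocInd (GrpS (ext A w u) T) := by
  classical
  -- the selection
  have hne : {q : R → Pos w | IsSel w q}.Nonempty := hH A.V X R w hq.bdry_inj
  obtain ⟨q, hqs, hqmin⟩ := Set.exists_min_image {q : R → Pos w | IsSel w q}
    (fun q => ∑ r, hgt w φ u (q r)) (Set.toFinite _) hne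
  obtain ⟨hrow, x, hx, hgen⟩ := hqs
  have huniq : ∀ q', IsSel w q' → q' ≠ q →
      ∑ r, hgt w φ u (q r) < ∑ r, hgt w φ u (q' r) := by
    intro q' h' hne'
    by_contra hle
    push Not at hle
    exact ht ⟨q, q', ⟨hrow, x, hx, hgen⟩, h', Ne.symm hne', hqmin,
      fun q'' hq'' => hle.trans (hqmin q'' hq'')⟩
  -- the occurrences of new letters
  let P : Type := {p : Pos w // ∃ y, gen w p = Sum.inr y}
  let g : P → X := fun p => p.2.choose
  have hg : ∀ p : P, gen w p.1 = Sum.inr (g p) := fun p => p.2.choose_spec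
  let qP : R → P := fun r => ⟨q r, x r, hgen r⟩
  have hgq : ∀ r, g (qP r) = x r := fun r => Sum.inr_injective ((hg (qP r)).symm.trans (hgen r))
  let TA : Set A.R := {j | (Sum.inl j : A.R ⊕ R) ∈ T}
  let TR : Set R := {r | (Sum.inr r : A.R ⊕ R) ∈ T}
  have h1 : LocInd (PresentedGroup (Set.range fun i : TA => A.r i)) := hA TA hf
  have h2 := hF A.V X TA (fun i : TA => A.r i) h1
  have hdA : ∀ i : TA, deg φ (FreeGroup.map Sum.inl (A.r i)) = 1 := fun i =>
    hφ.other i fun e => hf (e ▸ i.2)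
  have h3 := hB (A.V ⊕ X) TA φ (fun i : TA => FreeGroup.map Sum.inl (A.r i)) hdA h2
  have h4 := hE (TA × ℤ) (TR × ℤ) ((A.V ⊕ X) × ℤ)
    (fun i => lft φ i.2 (FreeGroup.map Sum.inl (A.r i.1)))
    (fun i => lft φ i.2 (extWord w u i.1))
    (fun i => (Sum.inr (x i.1), hgt w φ u (q i.1) + i.2))
    (fun i i₀ => (hL A.V X R w u φ i₀.2 (x i.1) (hgt w φ u (q i.1) + i.2)).2.2 (A.r i₀.1)) (by
      intro D hD
      obtain ⟨d, hd, hd'⟩ := t_WALK P R X (fun p => p.1.1) g (fun p => hgt w φ u p.1) qP hrow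
        (by
          intro r r' h
          refine hx ?_
          have h' : g (qP r) = g (qP r') := h
          rwa [hgq, hgq] at h')
        (by
          intro q' hr' hi' hne'
          refine huniq (fun r => (q' r).1) ⟨hr', fun r => g (q' r), hi', fun r => hg (q' r)⟩ ?_
          intro h
          apply hne'
          funext r
          exact Subtype.ext (congrFun h r))
        (D.image fun i => ((i.1 : R), i.2)) (hD.image _)
      obtain ⟨i, hi, rfl⟩ := Finset.mem_image.1 hd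
      have key : ∀ j ∈ D, ∀ k : Fin (w j.1).length, gen w ⟨j.1, k⟩ = Sum.inr (x i.1) →
          hgt w φ u ⟨j.1, k⟩ + j.2 = hgt w φ u (q i.1) + i.2 →
          j = i ∧ (⟨j.1, k⟩ : Pos w) = q i.1 := by
        intro j hj k hk1 hk2
        let p' : P := ⟨⟨j.1, k⟩, x i.1, hk1⟩
        have hp' : g p' = x i.1 := Sum.inr_injective ((hg p').symm.trans hk1)
        obtain ⟨e1, e2⟩ := hd' (j.1, j.2) (Finset.mem_image_of_mem _ hj) p' rfl
          (by rw [hp']; exact (hgq i.1).symm) hk2
        obtain ⟨f1, f2⟩ := Prod.mk_inj.1 e1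
        exact ⟨Prod.ext (Subtype.ext f1) f2, congrArg Subtype.val e2⟩
      refine ⟨i, hi, ?_, ?_⟩
      · obtain ⟨k, hk⟩ : ∃ k : Fin (w i.1).length, q i.1 = ⟨i.1, k⟩ := by
          have h1 := hrow i.1
          generalize q i.1 = p at h1
          obtain ⟨r, k⟩ := p
          simp only at h1
          subst h1
          exact ⟨k, rfl⟩
        have hgk : gen w ⟨i.1, k⟩ = Sum.inr (x i.1) := by rw [← hk]; exact hgen i.1
        obtain ⟨a, ha, b, hb, e⟩ := (hL A.V X R w u φ i.2 (x i.1)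
          (hgt w φ u (q i.1) + i.2)).2.1 i.1 k hgk (by rw [hk]) (by
            intro k' h1' h2'
            have := (key i hi k' h1' h2').2
            rw [hk] at this
            exact eq_of_heq (Sigma.mk.inj_iff.1 this).2)
        exact ⟨a, ha, b, hb, _, e⟩
      · intro j hj hji
        exact (hL A.V X R w u φ j.2 (x i.1) (hgt w φ u (q i.1) + i.2)).1 j.1
          fun k hk1 hk2 => hji (key j hj k hk1 hk2).1) h3
  have h5 := hV (A.V ⊕ X) (TA ⊕ TR) φ
    (Sum.elim (fun i : TA => FreeGroup.map Sum.inl (A.r i)) (fun r : TR => extWord w u r)) (by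
      rintro (i | r)
      · exact hdA i
      · exact (deg_extWord w u φ r).trans (hφ.new r)) (by
      have e : (Set.range fun i : (TA ⊕ TR) × ℤ => lft φ i.2
          (Sum.elim (fun i : TA => (FreeGroup.map Sum.inl (A.r i) : FreeGroup (A.V ⊕ X)))
            (fun r : TR => extWord w u r) i.1)) =
          Set.range (Sum.elim
            (fun i : TA × ℤ => lft φ i.2 (FreeGroup.map Sum.inl (A.r i.1)))
            (fun i : TR × ℤ => lft φ i.2 (extWord w u i.1))) := by
        ext g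
        constructor
        · rintro ⟨⟨i | r, n⟩, rfl⟩
          · exact ⟨Sum.inl (i, n), rfl⟩
          · exact ⟨Sum.inr (r, n), rfl⟩
        · rintro ⟨⟨i, n⟩ | ⟨r, n⟩, rfl⟩
          · exact ⟨(Sum.inl i, n), rfl⟩
          · exact ⟨(Sum.inr r, n), rfl⟩
      rw [e]
      exact h4)
  have e : (Set.range (Sum.elim (fun i : TA => (FreeGroup.map Sum.inl (A.r i) : FreeGroup (A.V ⊕ X)))
      (fun r : TR => extWord w u r))) = Set.range fun i : T => (ext A w u).r i.1 := by
    ext g
    constructor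
    · rintro ⟨i | r, rfl⟩
      · exact ⟨⟨Sum.inl i, i.2⟩, rfl⟩
      · exact ⟨⟨Sum.inr r, r.2⟩, rfl⟩
    · rintro ⟨⟨i | r, h⟩, rfl⟩
      · exact ⟨Sum.inl ⟨i, h⟩, rfl⟩
      · exact ⟨Sum.inr ⟨r, h⟩, rfl⟩
  rw [e] at h5
  exact h5

theorem up (hQ : S_QUO) (hD : S_DEG) (hC : S_CONTR) (hB : S_BLI) (hV : S_COVG) (hF : S_FPF)
    (hE : S_RELIM) (hL : S_LET) (hH : S_HALL2) (A : Cx) [Finite X] [Fintype R]
    (w : R → List ((A.V ⊕ X) × Bool)) (hA : A.Contractible) (hq : (quot w).Contractible)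
    (u : Pos w → FreeGroup A.V) (ht : ∀ f φ, IsDeg A w f φ → ¬ Tie w φ u) (h1 : AllLI A)
    (h2 : AllLI (quot w)) : AllLI (ext A w u) := by
  classical
  rw [allLI_iff]
  intro T
  by_cases h : ∀ f : A.R, (Sum.inl f : A.R ⊕ R) ∈ T
  · let S : Set R := {r | (Sum.inr r : A.R ⊕ R) ∈ T}
    obtain ⟨F, hF'⟩ := (hQ A X R w u hA S).1
    have e : T = {t : (ext A w u).R | ∀ r, t = Sum.inr r → r ∈ S} := by
      ext t
      constructor
      · rintro ht r rfl
        exact ht
      · intro ht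
        cases t with
        | inl f => exact h f
        | inr r => exact ht r rfl
    rw [e]
    exact locInd_of_injective ((allLI_iff _).1 h2 S) F hF'
  · push Not at h
    obtain ⟨f, hf⟩ := h
    obtain ⟨φ, hφ, _⟩ := hD hC A X R w hA hq f
    exact rel hB hV hF hE hL hH A w hq u f φ hφ (ht f φ hφ) (fun T _ => (allLI_iff A).1 h1 T) T hf

theorem down (hQ : S_QUO) (A : Cx) (w : R → List ((A.V ⊕ X) × Bool)) (hA : A.Contractible)
    (u : Pos w → FreeGroup A.V) (h : AllLI (ext A w u)) : AllLI A ∧ AllLI (quot w) := by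
  refine ⟨fun K s => h K (s.trans (subExt A w u)), (allLI_iff _).2 fun S => ?_⟩
  obtain ⟨G, hG⟩ := (hQ A X R w u hA S).2
  exact locInd_of_injective ((allLI_iff _).1 h _) G hG

theorem deg_pw [Fintype V] {w : R → List ((V ⊕ X) × Bool)} {N : ℕ} (h : Pos w × V → Fin N)
    (φ : V ⊕ X → ℤ) (p : Pos w) :
    (deg φ (FreeGroup.map Sum.inl (pw h p))).toAdd =
      ∑ v, (((h (p, v)) : ℕ) : ℤ) * φ (Sum.inl v) := by
  have h1 : deg φ (FreeGroup.map Sum.inl (pw h p)) =
      Multiplicative.ofAdd (∑ v, (((h (p, v)) : ℕ) : ℤ) * φ (Sum.inl v)) := by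
    rw [pw, map_list_prod, map_list_prod, List.map_map, List.map_map, Finset.prod_map_toList,
      ofAdd_sum]
    refine Finset.prod_congr rfl fun v _ => ?_
    simp only [Function.comp_apply]
    rw [map_pow, map_pow, FreeGroup.map.of, deg, FreeGroup.lift_apply_of, ← ofAdd_nsmul,
      nsmul_eq_mul]
  rw [h1]
  rfl

theorem count (hD : S_DEG) (hC : S_CONTR) (hI : S_ISO2) (A : Cx) [Finite X] [Fintype R]
    (w : R → List ((A.V ⊕ X) × Bool)) (hA : A.Contractible) (hq : (quot w).Contractible)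
    [Fintype A.V] [Fintype A.R] (N : ℕ) :
    {h : Pos w × A.V → Fin N | ∃ f φ, IsDeg A w f φ ∧ Tie w φ (pw h)}.ncard * N ≤
        Fintype.card A.R * (∑ r, (w r).length) * N ^ ((∑ r, (w r).length) * Fintype.card A.V) := by
  classical
  have hcard : Fintype.card (Pos w) = ∑ r, (w r).length := by
    rw [Fintype.card_sigma]
    exact Finset.sum_congr rfl fun r _ => Fintype.card_fin _
  have key : ∀ f : A.R, {h : Pos w × A.V → Fin N | ∃ φ, IsDeg A w f φ ∧ Tie w φ (pw h)}.ncard * N ≤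
      (∑ r, (w r).length) * N ^ ((∑ r, (w r).length) * Fintype.card A.V) := by
    intro f
    obtain ⟨φ, hφ, huq⟩ := hD hC A X R w hA hq f
    have hne : ∃ v : A.V, φ (Sum.inl v) ≠ 0 := by
      by_contra hcon
      push Not at hcon
      have h1 : (deg φ).comp (FreeGroup.map Sum.inl) = (1 : FreeGroup A.V →* Multiplicative ℤ) := by
        ext v
        rw [MonoidHom.comp_apply, FreeGroup.map.of, deg, FreeGroup.lift_apply_of, hcon]
        rfl
      have h2 : deg φ (FreeGroup.map Sum.inl (A.r f)) = 1 := DFunLike.congr_fun h1 (A.r f)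
      rw [hφ.self] at h2
      exact absurd (congrArg Multiplicative.toAdd h2) (by simp)
    have h1 := hI (Pos w) R A.V Sigma.fst N {q | IsSel w q} (fun v => φ (Sum.inl v))
      (fun p => (deg φ (FreeGroup.mk ((w p.1).take p.2))).toAdd - (if sgn w p then 0 else φ (gen w p)))
      (fun q hq => hq.1) hne
    rw [hcard] at h1
    refine le_trans (Nat.mul_le_mul_right N (Set.ncard_le_ncard ?_ (Set.toFinite _))) h1
    rintro h ⟨φ', hφ', q₁, q₂, h1, h2, h3, h4, h5⟩
    rw [huq φ' hφ'] at h4 h5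
    have e : ∀ p : Pos w, hgt w φ (pw h) p =
        ((deg φ (FreeGroup.mk ((w p.1).take p.2))).toAdd - (if sgn w p then 0 else φ (gen w p))) +
          ∑ v, (((h (p, v)) : ℕ) : ℤ) * φ (Sum.inl v) := by
      intro p
      rw [hgt, deg_pw]
      ring
    refine ⟨q₁, h1, q₂, h2, h3, fun q hq => ?_, fun q hq => ?_⟩
    · have := h4 q hq
      simp only [e] at this
      exact this
    · have := h5 q hq
      simp only [e] at this
      exact this
  have hsub : {h : Pos w × A.V → Fin N | ∃ f φ, IsDeg A w f φ ∧ Tie w φ (pw h)} =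
      ⋃ f : A.R, {h : Pos w × A.V → Fin N | ∃ φ, IsDeg A w f φ ∧ Tie w φ (pw h)} := by
    ext h
    simp
  rw [hsub]
  calc (⋃ f : A.R, {h : Pos w × A.V → Fin N | ∃ φ, IsDeg A w f φ ∧ Tie w φ (pw h)}).ncard * N
      ≤ (∑ f : A.R, {h : Pos w × A.V → Fin N | ∃ φ, IsDeg A w f φ ∧ Tie w φ (pw h)}.ncard) * N := by
        refine Nat.mul_le_mul_right N ?_
        exact Set.ncard_iUnion_le_of_fintype _
    _ = ∑ f : A.R, {h : Pos w × A.V → Fin N | ∃ φ, IsDeg A w f φ ∧ Tie w φ (pw h)}.ncard * N :=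
        Finset.sum_mul _ _ _
    _ ≤ ∑ _f : A.R, (∑ r, (w r).length) * N ^ ((∑ r, (w r).length) * Fintype.card A.V) :=
        Finset.sum_le_sum fun f _ => key f
    _ = _ := by rw [Finset.sum_const, Finset.card_univ, smul_eq_mul, mul_assoc]

theorem main (hQ : S_QUO) (hD : S_DEG) (hC : S_CONTR) (hB : S_BLI) (hV : S_COVG) (hF : S_FPF)
    (hE : S_RELIM) (hL : S_LET) (hH : S_HALL2) (hI : S_ISO2) : S_MAIN := by
  intro A X R _ _ w hA hq
  refine ⟨fun u => ⟨hC A X R w u hA hq, down hQ A w hA u,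
    fun ht h1 h2 => up hQ hD hC hB hV hF hE hL hH A w hA hq u ht h1 h2⟩, ?_,
    hD hC A X R w hA hq, fun N => count hD hC hI A w hA hq N⟩
  intro u f φ hφ ht hA' K s hs
  refine locInd_sub _ K s (rel hB hV hF hE hL hH A w hq u f φ hφ ht (fun T hT => ?_) _ hs)
  refine hA' (res A T) (subRes A T) ?_
  rw [range_subRes]
  exact hT

end Pool.Agent.H18EX
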