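import Pool.Agent.H18EX.Stm

/-!
# Piece QUO of project H18EX (helper14)
-/

set_option autoImplicit false

namespace Pool.Agent.H18EX.QUO

open Function Pool.Agent.R655.LI Pool.Agent.H18LI

variable {V X R : Type}

/-- forget the old letters -/
def pr (V X : Type) : FreeGroup (V ⊕ X) →* FreeGroup X :=
  FreeGroup.lift (Sum.elim (fun _ => 1) FreeGroup.of)

theorem pr_inl (v : V) : pr V X (FreeGroup.of (Sum.inl v)) = 1 := by
  simp [pr]

theorem pr_inr (x : X) : pr V X (FreeGroup.of (Sum.inr x)) = FreeGroup.of x := by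
  simp [pr]

theorem mk_eq_prod (l : List (X × Bool)) :
    FreeGroup.mk l = (List.ofFn fun k : Fin l.length => letter (l.get k).1 (l.get k).2).prod := by
  have h1 : (List.ofFn fun k : Fin l.length => letter (l.get k).1 (l.get k).2) =
      l.map fun a => letter a.1 a.2 := by
    conv_rhs => rw [← List.ofFn_get l, List.map_ofFn]
    rfl
  rw [h1]
  clear h1
  induction l with
  | nil => rfl
  | cons a l ih =>
    rw [List.map_cons, List.prod_cons, ← ih, letter, FreeGroup.mul_mk]
    rfl

theorem map_inl_one {G : Type} [Group G] (f : FreeGroup (V ⊕ X) →* G)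
    (hf : ∀ v, f (FreeGroup.of (Sum.inl v)) = 1) (g : FreeGroup V) :
    f (FreeGroup.map Sum.inl g) = 1 := by
  have : f.comp (FreeGroup.map Sum.inl) = 1 := by
    ext v
    simp [hf]
  exact DFunLike.congr_fun this g

/-- a homomorphism that kills the old letters does not see the conjugations -/
theorem map_extWord {G : Type} [Group G] (w : R → List ((V ⊕ X) × Bool)) (u : Pos w → FreeGroup V)
    (f : FreeGroup (V ⊕ X) →* G) (hf : ∀ v, f (FreeGroup.of (Sum.inl v)) = 1) (r : R) :
    f (extWord w u r) = f (FreeGroup.mk (w r)) := by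
  rw [extWord, mk_eq_prod, map_list_prod, map_list_prod, List.map_ofFn, List.map_ofFn]
  congr 1
  congr 1
  funext k
  simp only [Function.comp_apply, map_mul, map_inv, map_inl_one f hf, one_mul, inv_one, mul_one]
  rfl

theorem pr_extWord (w : R → List ((V ⊕ X) × Bool)) (u : Pos w → FreeGroup V) (r : R) :
    pr V X (extWord w u r) = pr V X (FreeGroup.mk (w r)) :=
  map_extWord w u (pr V X) pr_inl r

theorem mk_eq_lift {Y : Type} (rels : Set (FreeGroup Y)) :
    PresentedGroup.mk rels = FreeGroup.lift fun y => (PresentedGroup.of y : PresentedGroup rels) := by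
  ext y
  simp [PresentedGroup.of]

/-- the old letters are trivial -/
theorem old_one (A : Cx) (hA : A.Contractible) (rels : Set (FreeGroup (A.V ⊕ X)))
    (h : ∀ j, FreeGroup.map Sum.inl (A.r j) ∈ rels) (v : A.V) :
    (PresentedGroup.mk rels) (FreeGroup.of (Sum.inl v)) = 1 := by
  have h1 : FreeGroup.lift (fun v => PresentedGroup.mk rels (FreeGroup.of (Sum.inl v))) =
      (PresentedGroup.mk rels).comp (FreeGroup.map Sum.inl) := by
    ext v
    simp
  let φ : A.Pi →* PresentedGroup rels := PresentedGroup.toGroup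
    (f := fun v => PresentedGroup.mk rels (FreeGroup.of (Sum.inl v))) (by
      rintro _ ⟨j, rfl⟩
      rw [h1]
      exact PresentedGroup.one_of_mem (h j))
  have h2 : φ (PresentedGroup.of v) = PresentedGroup.mk rels (FreeGroup.of (Sum.inl v)) :=
    PresentedGroup.toGroup.of _
  rw [← h2, hA.pi_eq_one (PresentedGroup.of v), map_one]

/-- every word is equal to the word without the old letters -/
theorem mk_eq (A : Cx) (hA : A.Contractible) (rels : Set (FreeGroup (A.V ⊕ X)))
    (h : ∀ j, FreeGroup.map Sum.inl (A.r j) ∈ rels) (g : FreeGroup (A.V ⊕ X)) :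
    FreeGroup.lift (fun x => (PresentedGroup.of (Sum.inr x) : PresentedGroup rels)) (pr A.V X g) =
      PresentedGroup.mk rels g := by
  have h1 : (FreeGroup.lift (fun x => (PresentedGroup.of (Sum.inr x) : PresentedGroup rels))).comp
      (pr A.V X) = PresentedGroup.mk rels := by
    ext y
    rcases y with v | x
    · rw [MonoidHom.comp_apply, pr_inl, map_one, old_one A hA rels h]
    · rw [MonoidHom.comp_apply, pr_inr, FreeGroup.lift_apply_of]
      rfl
  exact DFunLike.congr_fun h1 g

theorem rel_one (A : Cx) (hA : A.Contractible) (rels : Set (FreeGroup (A.V ⊕ X)))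
    (h : ∀ j, FreeGroup.map Sum.inl (A.r j) ∈ rels) (w : R → List ((A.V ⊕ X) × Bool))
    (u : Pos w → FreeGroup A.V) (r : R) (hr : extWord w u r ∈ rels) :
    FreeGroup.lift (fun x => (PresentedGroup.of (Sum.inr x) : PresentedGroup rels))
      ((quot w).r r) = 1 := by
  have h1 : (quot w).r r = pr A.V X (FreeGroup.mk (w r)) := rfl
  rw [h1, ← pr_extWord w u r, mk_eq A hA rels h]
  exact PresentedGroup.one_of_mem hr

theorem gen_iso (A : Cx) (hA : A.Contractible) (rels : Set (FreeGroup (A.V ⊕ X)))
    (rels' : Set (FreeGroup X)) (h1 : ∀ j, FreeGroup.map Sum.inl (A.r j) ∈ rels)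
    (h2 : ∀ g ∈ rels, PresentedGroup.mk rels' (pr A.V X g) = 1)
    (h3 : ∀ g ∈ rels', FreeGroup.lift (fun x => (PresentedGroup.of (Sum.inr x) : PresentedGroup rels))
      g = 1) :
    (∃ F : PresentedGroup rels →* PresentedGroup rels', Injective F) ∧
      ∃ G : PresentedGroup rels' →* PresentedGroup rels, Injective G := by
  let G : PresentedGroup rels' →* PresentedGroup rels := PresentedGroup.toGroup
    (f := fun x => (PresentedGroup.of (Sum.inr x) : PresentedGroup rels)) h3
  have hpr : FreeGroup.lift (Sum.elim (fun _ : A.V => 1)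
      fun x => (PresentedGroup.of x : PresentedGroup rels')) =
      (PresentedGroup.mk _).comp (pr A.V X) := by
    ext y
    rcases y with v | x
    · rw [MonoidHom.comp_apply, pr_inl, map_one, FreeGroup.lift_apply_of]
      rfl
    · rw [MonoidHom.comp_apply, pr_inr, FreeGroup.lift_apply_of]
      rfl
  let F : PresentedGroup rels →* PresentedGroup rels' := PresentedGroup.toGroup
    (f := Sum.elim (fun _ => 1) fun x => (PresentedGroup.of x : PresentedGroup rels')) (by
      intro g hg
      rw [hpr]
      exact h2 g hg)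
  have hF1 : ∀ v : A.V, F (PresentedGroup.of (Sum.inl v)) = 1 := fun v => PresentedGroup.toGroup.of _
  have hF2 : ∀ x : X, F (PresentedGroup.of (Sum.inr x)) = PresentedGroup.of x :=
    fun x => PresentedGroup.toGroup.of _
  have hG : ∀ x : X, G (PresentedGroup.of x) = PresentedGroup.of (Sum.inr x) :=
    fun x => PresentedGroup.toGroup.of _
  have hGF : G.comp F = MonoidHom.id _ := by
    refine PresentedGroup.ext fun y => ?_
    rcases y with v | x
    · rw [MonoidHom.comp_apply, hF1, map_one, MonoidHom.id_apply]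
      exact (old_one A hA _ h1 v).symm
    · rw [MonoidHom.comp_apply, hF2, hG, MonoidHom.id_apply]
  have hFG : F.comp G = MonoidHom.id _ := by
    refine PresentedGroup.ext fun x => ?_
    rw [MonoidHom.comp_apply, hG, hF2, MonoidHom.id_apply]
  exact ⟨⟨F, LeftInverse.injective (g := G) fun y => DFunLike.congr_fun hGF y⟩,
    G, LeftInverse.injective (g := F) fun y => DFunLike.congr_fun hFG y⟩

theorem t_QUO : S_QUO := by
  intro A X R w u hA S
  refine gen_iso A hA (Set.range fun i : {t : A.R ⊕ R | ∀ r, t = Sum.inr r → r ∈ S} =>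
      (ext A w u).r i.1) (Set.range fun i : S => (quot w).r i.1)
    (fun j => ⟨⟨Sum.inl j, fun r hr => by cases hr⟩, rfl⟩) ?_ ?_
  · rintro _ ⟨⟨j | r, hi⟩, rfl⟩
    · show PresentedGroup.mk _ (pr A.V X (FreeGroup.map Sum.inl (A.r j))) = 1
      rw [map_inl_one _ pr_inl, map_one]
    · show PresentedGroup.mk _ (pr A.V X (extWord w u r)) = 1
      rw [pr_extWord]
      exact PresentedGroup.one_of_mem ⟨⟨r, hi r rfl⟩, rfl⟩
  · rintro _ ⟨i, rfl⟩
    exact rel_one A hA (Set.range fun i : {t : A.R ⊕ R | ∀ r, t = Sum.inr r → r ∈ S} =>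
      (ext A w u).r i.1) (fun j => ⟨⟨Sum.inl j, fun r hr => by cases hr⟩, rfl⟩) w u i.1
      ⟨⟨Sum.inr i.1, fun r hr => by cases hr; exact i.2⟩, rfl⟩

end Pool.Agent.H18EX.QUO
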