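import Pool.Agent.H18EX.Stm
import Pool.Agent.H18LI.ELIM

/-!
# Piece RELIM (relative elimination) of project H18EX
-/

set_option autoImplicit false

namespace Pool.Agent.H18EX.RELIM

open Function Pool.Agent.R655.LI Pool.Agent.H18LI

variable {I₀ I X : Type}

/-- finitely many relators can be eliminated without changing the relators `ρ₀` -/
theorem exists_retraction_rel (ρ₀ : I₀ → FreeGroup X) (ρ : I → FreeGroup X) (x : I → X)
    (h₀ : ∀ i i₀, ρ₀ i₀ ∈ Away (x i)) (H : Elim ρ x) (D : Finset I) :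
    ∃ φ : FreeGroup X →* FreeGroup X, (∀ i ∈ D, φ (ρ i) = 1) ∧ (∀ i₀, φ (ρ₀ i₀) = ρ₀ i₀) ∧
      ∀ w, w⁻¹ * φ w ∈ Subgroup.normalClosure (ρ '' D) := by
  classical
  induction' hn : D.card with n ih generalizing D
  · have : D = ∅ := Finset.card_eq_zero.1 hn
    subst this
    refine ⟨MonoidHom.id _, fun i hi => absurd hi (Finset.notMem_empty _), fun _ => rfl,
      fun w => ?_⟩
    rw [MonoidHom.id_apply, inv_mul_cancel]
    exact Subgroup.one_mem _
  · have hne : D.Nonempty := Finset.card_pos.1 (by omega)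
    obtain ⟨i, hi, hsol, haway⟩ := H D hne
    obtain ⟨σ, h1, h2, h3⟩ := exists_solution (x i) (ρ i) hsol
    obtain ⟨φ, g1, g0, g2⟩ := ih (D.erase i) (by rw [Finset.card_erase_of_mem hi]; omega)
    refine ⟨φ.comp σ, ?_, ?_, ?_⟩
    · intro j hj
      rw [MonoidHom.comp_apply]
      by_cases hji : j = i
      · rw [hji, h1, map_one]
      · rw [h2 _ (haway j hj hji)]
        exact g1 j (Finset.mem_erase.2 ⟨hji, hj⟩)
    · intro i₀
      rw [MonoidHom.comp_apply, h2 _ (h₀ i i₀), g0]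
    · intro w
      rw [MonoidHom.comp_apply]
      have k1 : w⁻¹ * σ w ∈ Subgroup.normalClosure (ρ '' D) := by
        refine Subgroup.normalClosure_mono ?_ (h3 w)
        rintro _ rfl
        exact ⟨i, hi, rfl⟩
      have k2 : (σ w)⁻¹ * φ (σ w) ∈ Subgroup.normalClosure (ρ '' D) := by
        refine Subgroup.normalClosure_mono ?_ (g2 (σ w))
        exact Set.image_mono (Finset.coe_subset.2 (Finset.erase_subset _ _))
      have := Subgroup.mul_mem _ k1 k2
      rwa [show w⁻¹ * σ w * ((σ w)⁻¹ * φ (σ w)) = w⁻¹ * φ (σ w) by group] at this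

/-- The relative version of `locInd_of_finite`. -/
theorem locInd_rel (ρ₀ : I₀ → FreeGroup X) (ρ : I → FreeGroup X)
    (hL : LocInd (PresentedGroup (Set.range ρ₀)))
    (H : ∀ D : Finset I, ∃ φ : FreeGroup X →* FreeGroup X, (∀ i ∈ D, φ (ρ i) = 1) ∧
      (∀ i₀, φ (ρ₀ i₀) = ρ₀ i₀) ∧ ∀ w, w⁻¹ * φ w ∈ Subgroup.normalClosure (ρ '' D)) :
    LocInd (PresentedGroup (Set.range (Sum.elim ρ₀ ρ))) := by
  classical
  intro J hJ hne
  have main : ∃ ψ : J →* Multiplicative ℤ, ∃ x, ψ x ≠ 1 := by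
    by_contra hcon
    push Not at hcon
    have : Group.FG J := (Group.fg_iff_subgroup_fg J).2 hJ
    obtain ⟨α, hα, P, hP⟩ := Group.fg_iff_exists_freeGroup_hom_surjective_finite.1 this
    have hsurj : Surjective (PresentedGroup.mk (Set.range (Sum.elim ρ₀ ρ))) :=
      PresentedGroup.mk_surjective _
    choose lft hlft using hsurj
    let Q : FreeGroup α →* FreeGroup X := FreeGroup.lift fun i => lft (P (FreeGroup.of i))
    have hQ : ∀ x, PresentedGroup.mk (Set.range (Sum.elim ρ₀ ρ)) (Q x) = P x := by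
      intro x
      have h : (PresentedGroup.mk (Set.range (Sum.elim ρ₀ ρ))).comp Q = J.subtype.comp P := by
        ext i
        show PresentedGroup.mk (Set.range (Sum.elim ρ₀ ρ)) (Q (FreeGroup.of i)) =
          P (FreeGroup.of i)
        have h2 : Q (FreeGroup.of i) = lft (P (FreeGroup.of i)) := FreeGroup.lift_apply_of
        rw [h2, hlft]
      exact DFunLike.congr_fun h x
    obtain ⟨T, hTK, hT⟩ := Pool.Agent.TH625.LOG.exists_finset_hom P.ker
    have hfin : ∀ x ∈ T, ∃ D : Finset (I₀ ⊕ I),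
        Q x ∈ Subgroup.normalClosure (Sum.elim ρ₀ ρ '' D) := by
      intro x hx
      refine exists_finset_of_mem (Sum.elim ρ₀ ρ) (Q x) ?_
      have h1 : PresentedGroup.mk (Set.range (Sum.elim ρ₀ ρ)) (Q x) = 1 := by
        rw [hQ, (MonoidHom.mem_ker).1 (hTK x hx)]
        rfl
      exact (PresentedGroup.mk_eq_one_iff).1 h1
    choose! S hS using hfin
    obtain ⟨φ, g1, g0, g2⟩ := H (T.biUnion S).toRight
    let mk₀ : FreeGroup X →* PresentedGroup (Set.range ρ₀) := PresentedGroup.mk (Set.range ρ₀)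
    have hker : Subgroup.normalClosure (Sum.elim ρ₀ ρ '' (T.biUnion S : Finset (I₀ ⊕ I))) ≤
        (mk₀.comp φ).ker := by
      refine Subgroup.normalClosure_le_normal ?_
      rintro _ ⟨i, hi, rfl⟩
      refine MonoidHom.mem_ker.2 ?_
      rw [MonoidHom.comp_apply]
      rcases i with i₀ | i
      · rw [Sum.elim_inl, g0]
        exact PresentedGroup.mk_eq_one_iff.2 (Subgroup.subset_normalClosure ⟨i₀, rfl⟩)
      · rw [Sum.elim_inr, g1 i (Finset.mem_toRight.2 hi), map_one]
    let Θ : FreeGroup α →* PresentedGroup (Set.range ρ₀) := (mk₀.comp φ).comp Q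
    have hΘT : ∀ x ∈ T, Θ x = 1 := by
      intro x hx
      refine MonoidHom.mem_ker.1 (hker ?_)
      refine Subgroup.normalClosure_mono (Set.image_mono ?_) (hS x hx)
      exact Finset.coe_subset.2 (Finset.subset_biUnion_of_mem S hx)
    have hJ : Θ.range = ⊥ := by
      by_contra hJ
      have hfg : Θ.range.FG := (Group.fg_iff_subgroup_fg _).1 (Group.fg_range Θ)
      obtain ⟨ψ, hψ⟩ := hL Θ.range hfg hJ
      obtain ⟨⟨_, y, rfl⟩, hy⟩ := hψ (Multiplicative.ofAdd 1)
      let χ : FreeGroup α →* Multiplicative ℤ := ψ.comp Θ.rangeRestrict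
      have hχ : ∀ x ∈ P.ker, χ x = 1 := by
        apply hT χ
        intro x hx
        show ψ (Θ.rangeRestrict x) = 1
        have h1 : Θ.rangeRestrict x = 1 := Subtype.ext (hΘT x hx)
        rw [h1, map_one]
      let f : J →* Multiplicative ℤ :=
        P.liftOfRightInverse (Function.surjInv hP) (Function.rightInverse_surjInv hP)
          ⟨χ, fun x hx => MonoidHom.mem_ker.2 (hχ x hx)⟩
      have hf : ∀ x, f (P x) = χ x := fun x =>
        P.liftOfRightInverse_comp_apply (Function.surjInv hP) (Function.rightInverse_surjInv hP) _ x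
      have h2 := hcon f (P y)
      rw [hf] at h2
      have h3 : χ y = Multiplicative.ofAdd 1 := hy
      rw [h2] at h3
      have h4 : (0 : ℤ) = 1 := h3
      omega
    apply hne
    rw [Subgroup.eq_bot_iff_forall]
    intro h hh
    obtain ⟨x, hx⟩ := hP ⟨h, hh⟩
    have h1 : mk₀ (φ (Q x)) = 1 := by
      have h2 : Θ x ∈ Θ.range := ⟨x, rfl⟩
      rw [hJ] at h2
      exact Subgroup.mem_bot.1 h2
    have h4 : φ (Q x) ∈ Subgroup.normalClosure (Set.range (Sum.elim ρ₀ ρ)) := by
      refine Subgroup.normalClosure_mono ?_ (PresentedGroup.mk_eq_one_iff.1 h1)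
      rintro _ ⟨i, rfl⟩
      exact ⟨Sum.inl i, rfl⟩
    have h5 : (Q x)⁻¹ * φ (Q x) ∈ Subgroup.normalClosure (Set.range (Sum.elim ρ₀ ρ)) := by
      refine Subgroup.normalClosure_mono ?_ (g2 (Q x))
      rintro _ ⟨i, _, rfl⟩
      exact ⟨Sum.inr i, rfl⟩
    have h3 : PresentedGroup.mk (Set.range (Sum.elim ρ₀ ρ)) (Q x) = 1 := by
      refine (PresentedGroup.mk_eq_one_iff).2 ?_
      have h6 := Subgroup.mul_mem _ h4 (Subgroup.inv_mem _ h5)
      rwa [show φ (Q x) * ((Q x)⁻¹ * φ (Q x))⁻¹ = Q x by group] at h6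
    rw [hQ, hx] at h3
    exact h3
  obtain ⟨ψ, hψ⟩ := main
  exact Pool.Agent.TH625.LOG.surj_of_ne ψ hψ

/-- **Piece RELIM** -/
theorem t_RELIM : S_RELIM := by
  intro I₀ I Y ρ₀ ρ x h₀ H hL
  exact locInd_rel ρ₀ ρ hL (exists_retraction_rel ρ₀ ρ x h₀ H)

end Pool.Agent.H18EX.RELIM
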