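import Pool.Agent.H18LI.Stm

/-!
# MP_cf50d6_gt: Q1 for almost all extensions of contractible complexes

Project H18EX (helper18). `A` is a contractible complex, `ext A w u` is `A` with new 1-cells `X` and new
2-cells `R`, and `quot w` is the quotient `ext A w u / A`. We show that Q1 for `A` and for the quotient
give Q1 for `ext A w u` for almost all `u`.

Every piece is a `Prop` `S_XXX`; prove `theorem t_XXX : S_XXX` in `Pool/Agent/H18EX/XXX.lean`, namespace
`Pool.Agent.H18EX.XXX` (an own namespace for the auxiliary lemmas). Please do not use `congr!`.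
-/

set_option autoImplicit false

namespace Pool.Agent.H18EX

open Function Pool.Agent.R655.LI Pool.Agent.H18LI

section defs

variable {V X R Y : Type}

/-- the attaching word of the new 2-cell `r`: every letter of `w r`, at the occurrence `p`, is
conjugated by the word `u p` in the old letters `V` -/
def extWord (w : R → List ((V ⊕ X) × Bool)) (u : Pos w → FreeGroup V) (r : R) :
    FreeGroup (V ⊕ X) :=
  (List.ofFn fun k : Fin (w r).length =>
    FreeGroup.map Sum.inl (u ⟨r, k⟩) * letter (gen w ⟨r, k⟩) (sgn w ⟨r, k⟩) *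
      (FreeGroup.map Sum.inl (u ⟨r, k⟩))⁻¹).prod

/-- the complex `A` with new 1-cells `X` and new 2-cells `R`, attached along the words `extWord w u` -/
def ext (A : Cx) (w : R → List ((A.V ⊕ X) × Bool)) (u : Pos w → FreeGroup A.V) : Cx :=
  ⟨A.V ⊕ X, A.R ⊕ R, Sum.elim (fun j => FreeGroup.map Sum.inl (A.r j)) (extWord w u)⟩

/-- the quotient complex `ext A w u / A` (for every `u`): the 1-cells `X`, the 2-cells `R`, the
attaching words are the words `w r` without the old letters -/
def quot (w : R → List ((V ⊕ X) × Bool)) : Cx :=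
  ⟨X, R, fun r => FreeGroup.lift (Sum.elim (fun _ => 1) FreeGroup.of) (FreeGroup.mk (w r))⟩

/-- Q1 for the complex `L`: the fundamental groups of all its subcomplexes are locally indicable -/
def AllLI (L : Cx) : Prop := ∀ (K : Cx) (_ : Sub K L), LocInd K.Pi

/-- the group of the subcomplex of `L` with all the 1-cells and the 2-cells in `T` -/
abbrev GrpS (L : Cx) (T : Set L.R) : Type := PresentedGroup (Set.range fun i : T => L.r i)

/-- the degree (weighted exponent sum) of a word -/
def deg (φ : Y → ℤ) : FreeGroup Y →* Multiplicative ℤ :=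
  FreeGroup.lift fun y => Multiplicative.ofAdd (φ y)

/-- `φ` is the degree with respect to the 2-cell `f` of `A`: the attaching word of `f` has degree `1`,
the attaching words of all the other 2-cells of `A` and of the new 2-cells have degree `0` -/
structure IsDeg (A : Cx) (w : R → List ((A.V ⊕ X) × Bool)) (f : A.R) (φ : A.V ⊕ X → ℤ) : Prop where
  self : deg φ (FreeGroup.map Sum.inl (A.r f)) = Multiplicative.ofAdd 1
  other : ∀ j, j ≠ f → deg φ (FreeGroup.map Sum.inl (A.r j)) = 1
  new : ∀ r, deg φ (FreeGroup.mk (w r)) = 1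

/-- the height of the occurrence `p`: the degree of the part of the word before `p` (including `p` if
it is the inverse of a letter) plus the degree of `u p` -/
def hgt (w : R → List ((V ⊕ X) × Bool)) (φ : V ⊕ X → ℤ) (u : Pos w → FreeGroup V) (p : Pos w) : ℤ :=
  (deg φ (FreeGroup.mk ((w p.1).take p.2))).toAdd + (deg φ (FreeGroup.map Sum.inl (u p))).toAdd -
    (if sgn w p then 0 else φ (gen w p))

/-- A selection: one occurrence of a new letter from every word `w r`, such that the selected letters
are different. -/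
def IsSel (w : R → List ((V ⊕ X) × Bool)) (q : R → Pos w) : Prop :=
  (∀ r, (q r).1 = r) ∧ ∃ x : R → X, Injective x ∧ ∀ r, gen w (q r) = Sum.inr (x r)

/-- There are two different selections of minimal total height. -/
def Tie [Fintype R] (w : R → List ((V ⊕ X) × Bool)) (φ : V ⊕ X → ℤ) (u : Pos w → FreeGroup V) :
    Prop :=
  ∃ q₁ q₂ : R → Pos w, IsSel w q₁ ∧ IsSel w q₂ ∧ q₁ ≠ q₂ ∧
    (∀ q, IsSel w q → ∑ r, hgt w φ u (q₁ r) ≤ ∑ r, hgt w φ u (q r)) ∧
    (∀ q, IsSel w q → ∑ r, hgt w φ u (q₂ r) ≤ ∑ r, hgt w φ u (q r))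

/-- the words given by exponents: `u p` is the product of the powers `v ^ h (p, v)` of the old letters
(in a fixed order) -/
noncomputable def pw [Fintype V] {w : R → List ((V ⊕ X) × Bool)} {N : ℕ} (h : Pos w × V → Fin N)
    (p : Pos w) : FreeGroup V :=
  ((Finset.univ : Finset V).toList.map fun v => FreeGroup.of v ^ (h (p, v) : ℕ)).prod

/-! ### The covering -/

/-- the translation by `n` -/
def shE (Y : Type) (n : ℤ) : FreeGroup (Y × ℤ) ≃* FreeGroup (Y × ℤ) :=
  FreeGroup.freeGroupCongr (Equiv.prodCongr (Equiv.refl _) (Equiv.addRight n))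

theorem shE_of (n : ℤ) (y : Y × ℤ) : shE Y n (FreeGroup.of y) = FreeGroup.of (y.1, y.2 + n) := rfl

theorem shE_add (n m : ℤ) (g : FreeGroup (Y × ℤ)) : shE Y (n + m) g = shE Y n (shE Y m g) := by
  have : (shE Y (n + m)).toMonoidHom = (shE Y n).toMonoidHom.comp (shE Y m).toMonoidHom := by
    ext y
    show FreeGroup.of (y.1, y.2 + (n + m)) = FreeGroup.of (y.1, y.2 + m + n)
    rw [add_comm n m, add_assoc]
  exact DFunLike.congr_fun this g

theorem shE_zero (g : FreeGroup (Y × ℤ)) : shE Y 0 g = g := by
  have : (shE Y 0).toMonoidHom = MonoidHom.id _ := by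
    ext y
    show FreeGroup.of (y.1, y.2 + 0) = FreeGroup.of y
    rw [add_zero]
  exact DFunLike.congr_fun this g

/-- the action of `ℤ` by translations -/
def shA (Y : Type) : Multiplicative ℤ →* MulAut (FreeGroup (Y × ℤ)) where
  toFun n := shE Y n.toAdd
  map_one' := MulEquiv.ext fun g => shE_zero g
  map_mul' n m := MulEquiv.ext fun g => shE_add n.toAdd m.toAdd g

/-- a word as an element of the semidirect product: the letter `y` goes from the level `0` to the level
`φ y` -/
def toSP (φ : Y → ℤ) : FreeGroup Y →* FreeGroup (Y × ℤ) ⋊[shA Y] Multiplicative ℤ :=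
  FreeGroup.lift fun y => SemidirectProduct.inl (FreeGroup.of (y, 0)) *
    SemidirectProduct.inr (Multiplicative.ofAdd (φ y))

/-- the lift of the word `g` that starts at the level `n`; use only the lemmas `lft_one`, `lft_of`,
`lft_mul`, `lft_inv`, `sh_lft` -/
def lft (φ : Y → ℤ) (n : ℤ) (g : FreeGroup Y) : FreeGroup (Y × ℤ) := shE Y n (toSP φ g).left

theorem toSP_right (φ : Y → ℤ) (g : FreeGroup Y) : (toSP φ g).right = deg φ g := by
  have : (SemidirectProduct.rightHom).comp (toSP φ) = deg φ := by
    ext y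
    simp [toSP, deg]
  exact DFunLike.congr_fun this g

theorem lft_one (φ : Y → ℤ) (n : ℤ) : lft φ n 1 = 1 := by
  rw [lft, map_one]
  exact map_one _

theorem lft_of (φ : Y → ℤ) (n : ℤ) (y : Y) : lft φ n (FreeGroup.of y) = FreeGroup.of (y, n) := by
  rw [lft, toSP, FreeGroup.lift_apply_of, SemidirectProduct.mul_left, SemidirectProduct.left_inl,
    SemidirectProduct.left_inr, map_one, mul_one, shE_of, zero_add]

theorem lft_mul (φ : Y → ℤ) (n : ℤ) (g h : FreeGroup Y) :
    lft φ n (g * h) = lft φ n g * lft φ (n + (deg φ g).toAdd) h := by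
  rw [lft, lft, lft, map_mul, SemidirectProduct.mul_left, map_mul, toSP_right, shE_add]
  rfl

theorem lft_inv (φ : Y → ℤ) (n : ℤ) (g : FreeGroup Y) :
    lft φ n g⁻¹ = (lft φ (n - (deg φ g).toAdd) g)⁻¹ := by
  have h1 := lft_mul φ (n - (deg φ g).toAdd) g g⁻¹
  rw [mul_inv_cancel, lft_one, sub_add_cancel] at h1
  exact (inv_eq_of_mul_eq_one_right h1.symm).symm

theorem sh_lft (φ : Y → ℤ) (m n : ℤ) (g : FreeGroup Y) : shE Y m (lft φ n g) = lft φ (n + m) g := by
  rw [lft, lft, add_comm, shE_add]

end defs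

/-- Piece CONTR. The extension of a contractible complex by a contractible quotient is contractible.
Proof: `π₁`: the homomorphism `A.Pi → (ext A w u).Pi` shows that the old letters are trivial in the
group of `ext A w u`; so the word `extWord w u r` is there the product of the new letters of `w r`,
and `x ↦ x` defines a surjective homomorphism `(quot w).Pi → (ext A w u).Pi`. Boundary operator: let
`c : A.R ⊕ R →₀ ℤ` have boundary `0`. The `X`-part of `expSum (extWord w u r)` is the exponent sum of
`(quot w).r r` (conjugations do not matter; compare two homomorphisms to the commutative group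
`Multiplicative (X →₀ ℤ)` on every factor) and the `X`-part of `expSum (map Sum.inl _)` is zero, so the
`R`-part of `c` is zero; then so is the `A.R`-part. -/
def S_CONTR : Prop :=
  ∀ (A : Cx) (X R : Type) (w : R → List ((A.V ⊕ X) × Bool)) (u : Pos w → FreeGroup A.V),
    A.Contractible → (quot w).Contractible → (ext A w u).Contractible

/-- Piece QUO. The subcomplexes of `ext A w u` that contain all of `A` have the fundamental groups of
the subcomplexes of the quotient. (`{t | ∀ r, t = Sum.inr r → r ∈ S}` are all the 2-cells of `A` and the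
new 2-cells in `S`.)
Proof: the isomorphisms are `Sum.inl v ↦ 1`, `Sum.inr x ↦ x` and `x ↦ Sum.inr x`; the old letters are
trivial in `GrpS (ext A w u) _`, because `A.Pi` is trivial and maps to it, so the composite of the first
with the second is the identity on all generators. -/
def S_QUO : Prop :=
  ∀ (A : Cx) (X R : Type) (w : R → List ((A.V ⊕ X) × Bool)) (u : Pos w → FreeGroup A.V),
    A.Contractible → ∀ S : Set R,
    (∃ F : GrpS (ext A w u) {t | ∀ r, t = Sum.inr r → r ∈ S} →* GrpS (quot w) S, Injective F) ∧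
    ∃ G : GrpS (quot w) S →* GrpS (ext A w u) {t | ∀ r, t = Sum.inr r → r ∈ S}, Injective G

/-- Piece COVG. The covering: if the group with generators `Y × ℤ` and relators all the lifts is
locally indicable, so is the group with generators `Y` and relators `ρ`.
Proof: as `Pool/Agent/H18RD/COV2.lean` (shorter): let `N` be the former group. By `sh_lft` the
translations act on `N`; `G → N ⋊ ℤ`, `y ↦ inl (y, 0) * inr (φ y)`, maps a word `g` to
`inl (lft φ 0 g) * inr (deg g)` (compare homomorphisms `FreeGroup Y → N ⋊ ℤ`, or: it is the composite of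
`toSP φ` with `FreeGroup (Y × ℤ) ⋊ ℤ → N ⋊ ℤ`), so it is well defined; the left inverse is `(y, k) ↦ y`,
`inr 1 ↦ 1` (the homomorphism `FreeGroup (Y × ℤ) → FreeGroup Y`, `(y, k) ↦ y`, maps `lft φ n g` to `g`).
Use `locInd_semidirect`, `locInd_of_injective` of `Pool/Agent/H18LI/COV.lean`. -/
def S_COVG : Prop :=
  ∀ (Y I : Type) (φ : Y → ℤ) (ρ : I → FreeGroup Y), (∀ i, deg φ (ρ i) = 1) →
    LocInd (PresentedGroup (Set.range fun i : I × ℤ => lft φ i.2 (ρ i.1))) →
    LocInd (PresentedGroup (Set.range ρ))

/-- Piece BLI. The converse. Proof: let `G` be the group with generators `Y` and relators `ρ`, `N` the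
one with generators `Y × ℤ` and relators all the lifts. `FreeGroup G ⋊ G` (`G` acts on the letters by
left multiplication; this is `G * ℤ` with `s = inl (of 1)`) is locally indicable: an extension of `G` by
a free group (`Pool.Agent.TH625.LOG.LocInd.ext` as in `locInd_semidirect`; free groups: see
`Pool/Agent/H18LI/ELIM.lean`). The homomorphism `N → FreeGroup G ⋊ G`,
`(y, k) ↦ s ^ k * inr y * s ^ (-(k + φ y))`, maps `lft φ n g` to `s ^ n * inr g * s ^ (-(n + deg g))`, so
it is well defined (relators have degree 0). It is injective: composed with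
`FreeGroup G ⋊ G → N ⋊ ℤ`, `inr y ↦ inl (y, 0) * inr (φ y)`, `inl (of g) ↦ g' * inr 1 * g'⁻¹` (`g'` the
image of `g` under the homomorphism `G → N ⋊ ℤ` of COVG) it is `inl`. -/
def S_BLI : Prop :=
  ∀ (Y I : Type) (φ : Y → ℤ) (ρ : I → FreeGroup Y), (∀ i, deg φ (ρ i) = 1) →
    LocInd (PresentedGroup (Set.range ρ)) →
    LocInd (PresentedGroup (Set.range fun i : I × ℤ => lft φ i.2 (ρ i.1)))

/-- Piece FPF. The free product of a locally indicable group `G` (generators `V`, relators `ρ`) with a
free group (on `X`) is locally indicable. Proof: it embeds in `FreeGroup (G × X) ⋊ G`, `G` acting by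
left multiplication on the first coordinate of the letters, by `Sum.inl v ↦ inr v`,
`Sum.inr x ↦ inl (of (1, x))`; left inverse `inr g ↦ g`, `inl (of (g, x)) ↦ g x g⁻¹`. The semidirect
product is locally indicable (`Pool.Agent.TH625.LOG.LocInd.ext` as in `locInd_semidirect`; free groups:
see `Pool/Agent/H18LI/ELIM.lean`). -/
def S_FPF : Prop :=
  ∀ (V X I : Type) (ρ : I → FreeGroup V), LocInd (PresentedGroup (Set.range ρ)) →
    LocInd (PresentedGroup (Set.range fun i => (FreeGroup.map Sum.inl (ρ i) : FreeGroup (V ⊕ X))))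

/-- Piece RELIM. The relative version of `Pool/Agent/H18LI/ELIM.lean` (`S_ELIM`): the relators `ρ₀` do
not contain the letters `x i`. Proof: as there: by induction on `|D|` there is an endomorphism `ψ` of
the free group with `ψ (ρ i) = 1` for `i ∈ D`, `w⁻¹ * ψ w ∈ ⟨⟨ρ '' D⟩⟩`, and `ψ (ρ₀ i₀) = ρ₀ i₀` (an
elimination step is the identity on `Away (x i)`). So the group with the relators `ρ₀` and `ρ i`,
`i ∈ D`, embeds in the one with the relators `ρ₀`. The group with all relators is the direct limit:
for a finitely generated subgroup `H ≠ ⊥` choose words for its generators; if for a finite `D` their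
images generate a nontrivial subgroup ... as in `locInd_of_finite`. -/
def S_RELIM : Prop :=
  ∀ (I₀ I Y : Type) (ρ₀ : I₀ → FreeGroup Y) (ρ : I → FreeGroup Y) (x : I → Y),
    (∀ i i₀, ρ₀ i₀ ∈ Away (x i)) →
    (∀ D : Finset I, D.Nonempty → ∃ i ∈ D,
      (∃ u ∈ Away (x i), ∃ v ∈ Away (x i), ∃ b, ρ i = u * letter (x i) b * v) ∧
      ∀ j ∈ D, j ≠ i → ρ j ∈ Away (x i)) →
    LocInd (PresentedGroup (Set.range ρ₀)) →
    LocInd (PresentedGroup (Set.range (Sum.elim ρ₀ ρ)))

/-- Piece LET. The letters `(Sum.inr x, m)` in the lift of `extWord w u r` that starts at the level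
`n` come from the occurrences `⟨r, k⟩` of `x` in `w r` with `hgt w φ u ⟨r, k⟩ + n = m`; lifts of words
in the old letters do not contain them.
Proof: (c) by `lft_mul`, `lft_of`, `lft_inv` and induction on the word (`FreeGroup.induction_on`).
(a), (b): `extWord` is the product of the factors `c k = u * letter * u⁻¹`; by induction
`lft φ n (∏ c k) = ∏ lft φ (n + D k) (c k)` with `D k` = the degree of `c 0 * ... * c (k - 1)`, i.e. of
`FreeGroup.mk ((w r).take k)` (conjugation does not change the degree), and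
`lft φ m (u * letter y b * u⁻¹) = lft φ m u * letter (y, m + deg u - (if b then 0 else φ y)) b * (lft _ u)⁻¹`
(the last factor starts at some level, only (c) is needed for it). -/
def S_LET : Prop :=
  ∀ (V X R : Type) (w : R → List ((V ⊕ X) × Bool)) (u : Pos w → FreeGroup V) (φ : V ⊕ X → ℤ) (n : ℤ)
    (x : X) (m : ℤ),
    (∀ r, (∀ k : Fin (w r).length, gen w ⟨r, k⟩ = Sum.inr x → hgt w φ u ⟨r, k⟩ + n ≠ m) →
      lft φ n (extWord w u r) ∈ Away ((Sum.inr x, m) : (V ⊕ X) × ℤ)) ∧
    (∀ r (k : Fin (w r).length), gen w ⟨r, k⟩ = Sum.inr x → hgt w φ u ⟨r, k⟩ + n = m →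
      (∀ k' : Fin (w r).length, gen w ⟨r, k'⟩ = Sum.inr x → hgt w φ u ⟨r, k'⟩ + n = m → k' = k) →
      ∃ a ∈ Away ((Sum.inr x, m) : (V ⊕ X) × ℤ), ∃ b ∈ Away ((Sum.inr x, m) : (V ⊕ X) × ℤ),
        lft φ n (extWord w u r) = a * letter (Sum.inr x, m) (sgn w ⟨r, k⟩) * b) ∧
    ∀ g : FreeGroup V, lft φ n (FreeGroup.map Sum.inl g) ∈ Away ((Sum.inr x, m) : (V ⊕ X) × ℤ)

/-- Piece HALL2. If the boundary operator of the quotient is injective, there is a selection.
Proof: `t_HALL` (`Pool/Agent/H18LI/HALL.lean`) for the lists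
`(w r).filterMap fun a => a.1.elim (fun _ => none) (fun x => some (x, a.2))`, whose classes in the free
group are the `(quot w).r r`; a member of the filtered list comes from an occurrence in `w r`
(`List.mem_filterMap`, `List.mem_iff_get`). -/
def S_HALL2 : Prop :=
  ∀ (V X R : Type) [Finite X] [Finite R] (w : R → List ((V ⊕ X) × Bool)),
    Injective (quot w).bdry → ∃ q, IsSel w q

/-- Piece DEG. Existence and uniqueness of the degree (given CONTR). Proof: `L = ext A w 1` is
contractible and its attaching words are `map Sum.inl (A.r j)` and `FreeGroup.mk (w r)`. Its boundary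
operator is bijective (`bdry_surj` in `Pool/Agent/R655/LI/Howie.lean`); let `φ v` be the coefficient of
`Sum.inl f` in the 2-chain with boundary `v`. `deg φ g` is the value on `expSum g` of the linear
extension of `φ`, so it is the coefficient of `Sum.inl f` in `bdry⁻¹ (expSum g)`. Uniqueness: two such
`φ` agree on the boundaries of all 2-cells, and these generate the 1-chains. -/
def S_DEG : Prop :=
  S_CONTR → ∀ (A : Cx) (X R : Type) (w : R → List ((A.V ⊕ X) × Bool)), A.Contractible →
    (quot w).Contractible → ∀ f : A.R, ∃! φ : A.V ⊕ X → ℤ, IsDeg A w f φ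

/-- Piece ISO2 (isolation lemma). The weights are `c p + ∑ v, h (p, v) * a v` with `a ≠ 0`.
Proof: as `Pool/Agent/H18LI/ISO.lean`: fix `v₀` with `a v₀ ≠ 0`; if `q₁ ≠ q₂` are both minimal, `h` is in
`Bad p = {h | some minimal selection uses p and some minimal selection does not use p}` for some `p`;
two members of `Bad p` that agree outside `(p, v₀)` are equal (if the weight of `p` for `h` is smaller
than for `h'`, then `W' q₂ = W q₂ = W q₁ ≤ W q₁' < W' q₁' = W' q₂' ≤ W' q₂`); so
`|Bad p| * N ≤ N ^ (|P| * |V|)`. -/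
def S_ISO2 : Prop :=
  ∀ (P R V : Type) [Fintype P] [Fintype R] [Fintype V] (row : P → R) (N : ℕ) (Sel : Set (R → P))
    (a : V → ℤ) (c : P → ℤ), (∀ q ∈ Sel, ∀ r, row (q r) = r) → (∃ v, a v ≠ 0) →
    {h : P × V → Fin N | ∃ q₁ ∈ Sel, ∃ q₂ ∈ Sel, q₁ ≠ q₂ ∧
      (∀ q ∈ Sel, ∑ r, (c (q₁ r) + ∑ v, ((h (q₁ r, v) : ℕ) : ℤ) * a v) ≤
        ∑ r, (c (q r) + ∑ v, ((h (q r, v) : ℕ) : ℤ) * a v)) ∧
      (∀ q ∈ Sel, ∑ r, (c (q₂ r) + ∑ v, ((h (q₂ r, v) : ℕ) : ℤ) * a v) ≤
        ∑ r, (c (q r) + ∑ v, ((h (q r, v) : ℕ) : ℤ) * a v))}.ncard * N ≤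
    Fintype.card P * N ^ (Fintype.card P * Fintype.card V)

/-- the main result -/
def S_MAIN : Prop :=
  ∀ (A : Cx) (X R : Type) [Finite X] [Fintype R] (w : R → List ((A.V ⊕ X) × Bool)),
    A.Contractible → (quot w).Contractible →
    (∀ u : Pos w → FreeGroup A.V, (ext A w u).Contractible ∧
      (AllLI (ext A w u) → AllLI A ∧ AllLI (quot w)) ∧
      ((∀ f φ, IsDeg A w f φ → ¬ Tie w φ u) → AllLI A → AllLI (quot w) → AllLI (ext A w u))) ∧
    (∀ (u : Pos w → FreeGroup A.V) (f : A.R) (φ : A.V ⊕ X → ℤ), IsDeg A w f φ → ¬ Tie w φ u →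
      (∀ (K : Cx) (s : Sub K A), f ∉ Set.range s.c → LocInd K.Pi) →
      ∀ (K : Cx) (s : Sub K (ext A w u)), (Sum.inl f : A.R ⊕ R) ∉ Set.range s.c → LocInd K.Pi) ∧
    (∀ f : A.R, ∃! φ, IsDeg A w f φ) ∧
    ∀ [Fintype A.V] [Fintype A.R] (N : ℕ),
      {h : Pos w × A.V → Fin N | ∃ f φ, IsDeg A w f φ ∧ Tie w φ (pw h)}.ncard * N ≤
        Fintype.card A.R * (∑ r, (w r).length) * N ^ ((∑ r, (w r).length) * Fintype.card A.V)

end Pool.Agent.H18EX
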